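import Pool.Agent.P.MP_708b53_co.Basic

namespace Pool.Agent.P.MP_708b53_co

open Finset

noncomputable def ptA (m i : ℕ) : ℝ × ℝ := (2 * (i : ℝ) * (m : ℝ) ^ 2, 1)
noncomputable def ptC (m j : ℕ) : ℝ × ℝ := (-2 * (j : ℝ) * (m : ℝ) ^ 2 + 2 * ((j % m : ℕ) : ℝ), -1)
noncomputable def ptB (k : ℕ) : ℝ × ℝ := ((k : ℝ), 0)
noncomputable def ptD (m k : ℕ) : ℝ × ℝ := ((m : ℝ) ^ 2 + (k : ℝ), 0)

noncomputable def conf (m : ℕ) : Finset (ℝ × ℝ) :=
  ((range (m + 1)).image (ptA m) ∪ (range (m + 1)).image (ptC m)) ∪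
    ((range m).image ptB ∪ (range m).image (ptD m))

lemma mem_conf {m : ℕ} {p : ℝ × ℝ} : p ∈ conf m ↔
    ((∃ i ≤ m, p = ptA m i) ∨ (∃ j ≤ m, p = ptC m j)) ∨
      ((∃ k < m, p = ptB k) ∨ (∃ k < m, p = ptD m k)) := by
  simp only [conf, mem_union, mem_image, mem_range, Nat.lt_succ_iff, eq_comm (a := p)]

lemma conf_levels {m : ℕ} : ∀ p ∈ conf m, p.2 = 1 ∨ p.2 = 0 ∨ p.2 = -1 := by
  intro p hp
  rcases mem_conf.1 hp with (⟨i, -, rfl⟩ | ⟨i, -, rfl⟩) | (⟨i, -, rfl⟩ | ⟨i, -, rfl⟩) <;>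
    simp [ptA, ptB, ptC, ptD]

lemma conf_top {m : ℕ} {p : ℝ × ℝ} (hp : p ∈ conf m) (h : p.2 = 1) : ∃ i ≤ m, p = ptA m i := by
  rcases mem_conf.1 hp with (⟨i, hi, rfl⟩ | ⟨i, -, rfl⟩) | (⟨i, -, rfl⟩ | ⟨i, -, rfl⟩)
  · exact ⟨i, hi, rfl⟩
  all_goals (simp only [ptB, ptC, ptD] at h; norm_num at h)

lemma conf_bot {m : ℕ} {p : ℝ × ℝ} (hp : p ∈ conf m) (h : p.2 = -1) : ∃ i ≤ m, p = ptC m i := by
  rcases mem_conf.1 hp with (⟨i, -, rfl⟩ | ⟨i, hi, rfl⟩) | (⟨i, -, rfl⟩ | ⟨i, -, rfl⟩)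
  · simp only [ptA] at h; norm_num at h
  · exact ⟨i, hi, rfl⟩
  all_goals (simp only [ptB, ptD] at h; norm_num at h)

lemma conf_mid {m : ℕ} {p : ℝ × ℝ} (hp : p ∈ conf m) (h : p.2 = 0) :
    0 ≤ p.1 ∧ p.1 ≤ (m : ℝ) ^ 2 + m - 1 := by
  rcases mem_conf.1 hp with (⟨i, -, rfl⟩ | ⟨i, -, rfl⟩) | (⟨i, hi, rfl⟩ | ⟨i, hi, rfl⟩)
  · simp only [ptA] at h; norm_num at h
  · simp only [ptC] at h; norm_num at h
  · have : (i : ℝ) + 1 ≤ m := by exact_mod_cast hi
    simp only [ptB]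
    constructor
    · positivity
    · nlinarith [sq_nonneg (m : ℝ)]
  · have : (i : ℝ) + 1 ≤ m := by exact_mod_cast hi
    simp only [ptD]
    constructor
    · positivity
    · linarith

lemma mod_bounds {m : ℕ} (hm : 0 < m) (j : ℕ) :
    (0 : ℝ) ≤ ((j % m : ℕ) : ℝ) ∧ ((j % m : ℕ) : ℝ) + 1 ≤ m := by
  constructor
  · positivity
  · exact_mod_cast Nat.mod_lt j hm

lemma conf_inClass {m : ℕ} (hm : 2 ≤ m) : InClass 6 (conf m) := by
  apply inClass_six conf_levels
  intro a ha a' ha' c hc c' hc' b hb b' hb' hay hay' hcy hcy' hby hby' haa hcc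
  obtain ⟨i, -, rfl⟩ := conf_top ha hay
  obtain ⟨i', -, rfl⟩ := conf_top ha' hay'
  obtain ⟨j, -, rfl⟩ := conf_bot hc hcy
  obtain ⟨j', -, rfl⟩ := conf_bot hc' hcy'
  have h1 := conf_mid hb hby
  have h2 := conf_mid hb' hby'
  have hj := mod_bounds (show 0 < m by omega) j
  have hj' := mod_bounds (show 0 < m by omega) j'
  have hm' : (2 : ℝ) ≤ m := by exact_mod_cast hm
  have hM : (0 : ℝ) < (m : ℝ) ^ 2 := by positivity
  have hMm : 2 * (m : ℝ) ≤ (m : ℝ) ^ 2 := by nlinarith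
  simp only [ptA, ptC] at haa hcc ⊢
  have hii : (i : ℝ) + 1 ≤ i' := by
    have : i < i' := by
      by_contra h
      push Not at h
      have : (i' : ℝ) ≤ i := by exact_mod_cast h
      nlinarith
    exact_mod_cast this
  have hjj : (j' : ℝ) + 1 ≤ j := by
    have : j' < j := by
      by_contra h
      push Not at h
      rcases h.eq_or_lt with rfl | h
      · exact lt_irrefl _ hcc
      · have : (j : ℝ) + 1 ≤ j' := by exact_mod_cast h
        nlinarith
    exact_mod_cast this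
  nlinarith [mul_le_mul_of_nonneg_right hii hM.le, mul_le_mul_of_nonneg_right hjj hM.le]

/-- Two different transversal segments with the same midpoint are the first and the last one. -/
lemma same_mid {m i i' j j' : ℕ} (hm : 2 ≤ m) (hj : j ≤ m) (hj' : j' ≤ m)
    (hne : i ≠ i' ∨ j ≠ j')
    (h : (ptA m i).1 + (ptC m j).1 = (ptA m i').1 + (ptC m j').1) :
    |(ptA m i).1 - (ptA m i').1| = 2 * m * (m : ℝ) ^ 2 ∧
      |(ptC m j).1 - (ptC m j').1| = 2 * m * (m : ℝ) ^ 2 := by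
  simp only [ptA, ptC] at h ⊢
  have hz : (2 * (i : ℤ) * (m : ℤ) ^ 2 + (-2 * (j : ℤ) * (m : ℤ) ^ 2 + 2 * ((j % m : ℕ) : ℤ))) =
      2 * (i' : ℤ) * (m : ℤ) ^ 2 + (-2 * (j' : ℤ) * (m : ℤ) ^ 2 + 2 * ((j' % m : ℕ) : ℤ)) := by
    apply Int.cast_injective (α := ℝ)
    simp only [Int.cast_add, Int.cast_mul, Int.cast_pow, Int.cast_natCast, Int.cast_neg,
      Int.cast_ofNat]
    exact h
  have b1 : j % m < m := Nat.mod_lt j (by omega)
  have b2 : j' % m < m := Nat.mod_lt j' (by omega)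
  have hM : (m : ℤ) ≤ (m : ℤ) ^ 2 := by nlinarith
  have hd : (i : ℤ) - j - (i' - j') = 0 := by
    have e : ((i : ℤ) - j - (i' - j')) * (m : ℤ) ^ 2 =
        ((j' % m : ℕ) : ℤ) - ((j % m : ℕ) : ℤ) := by linarith
    have b1' : ((j % m : ℕ) : ℤ) < m := by exact_mod_cast b1
    have b2' : ((j' % m : ℕ) : ℤ) < m := by exact_mod_cast b2
    have b3 : (0 : ℤ) ≤ ((j % m : ℕ) : ℤ) := by positivity
    have b4 : (0 : ℤ) ≤ ((j' % m : ℕ) : ℤ) := by positivity
    by_contra hcon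
    rcases lt_or_gt_of_ne hcon with hlt | hlt
    · have : (i : ℤ) - j - (i' - j') ≤ -1 := by omega
      nlinarith
    · have : 1 ≤ (i : ℤ) - j - (i' - j') := by omega
      nlinarith
  have hmod : j % m = j' % m := by
    have e : ((i : ℤ) - j - (i' - j')) * (m : ℤ) ^ 2 =
        ((j' % m : ℕ) : ℤ) - ((j % m : ℕ) : ℤ) := by linarith
    rw [hd, zero_mul] at e
    omega
  have hjj : j ≠ j' := by
    rcases hne with h' | h'
    · omega
    · exact h'
  have hcase : (j = 0 ∧ j' = m) ∨ (j = m ∧ j' = 0) := by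
    rcases hj.eq_or_lt with e1 | e1 <;> rcases hj'.eq_or_lt with e2 | e2
    · omega
    · rw [e1, Nat.mod_self, Nat.mod_eq_of_lt e2] at hmod; omega
    · rw [e2, Nat.mod_self, Nat.mod_eq_of_lt e1] at hmod; omega
    · rw [Nat.mod_eq_of_lt e1, Nat.mod_eq_of_lt e2] at hmod; omega
  have hpos : (0 : ℝ) ≤ 2 * m * (m : ℝ) ^ 2 := by positivity
  rw [hmod]
  rcases hcase with ⟨e1, e2⟩ | ⟨e1, e2⟩
  · have hi : (i' : ℝ) = i + m := by
      have : i' = i + m := by omega
      exact_mod_cast this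
    constructor
    · rw [abs_sub_comm, ← abs_of_nonneg hpos, hi]; congr 1; ring
    · rw [← abs_of_nonneg hpos, e1, e2]; congr 1; push_cast; ring
  · have hi : (i : ℝ) = i' + m := by
      have : i = i' + m := by omega
      exact_mod_cast this
    constructor
    · rw [← abs_of_nonneg hpos, hi]; congr 1; ring
    · rw [abs_sub_comm, ← abs_of_nonneg hpos, e1, e2]; congr 1; push_cast; ring

lemma four_le_mid {m : ℕ} (hm : 2 ≤ m) : 4 ≤ ((conf m).filter (fun p => p.2 = 0)).card := by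
  have hm' : (2 : ℝ) ≤ m := by exact_mod_cast hm
  have hM : (4 : ℝ) ≤ (m : ℝ) ^ 2 := by nlinarith
  have hsub : ({ptB 0, ptB 1, ptD m 0, ptD m 1} : Finset (ℝ × ℝ)) ⊆
      (conf m).filter (fun p => p.2 = 0) := by
    intro p hp
    simp only [mem_insert, mem_singleton] at hp
    rw [mem_filter, mem_conf]
    rcases hp with rfl | rfl | rfl | rfl
    · exact ⟨Or.inr (Or.inl ⟨0, by omega, rfl⟩), rfl⟩
    · exact ⟨Or.inr (Or.inl ⟨1, by omega, rfl⟩), rfl⟩
    · exact ⟨Or.inr (Or.inr ⟨0, by omega, rfl⟩), rfl⟩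
    · exact ⟨Or.inr (Or.inr ⟨1, by omega, rfl⟩), rfl⟩
  refine le_trans (le_of_eq ?_) (card_le_card hsub)
  have ne1 : ∀ {p q : ℝ × ℝ}, p.1 < q.1 → p ≠ q := fun h e => h.ne (by rw [e])
  rw [card_insert_of_notMem, card_insert_of_notMem, card_insert_of_notMem, card_singleton]
  · simp only [mem_singleton]
    exact ne1 (by simp [ptD])
  · simp only [mem_insert, mem_singleton, not_or]
    exact ⟨ne1 (by simp only [ptB, ptD]; push_cast; linarith),
      ne1 (by simp only [ptB, ptD]; push_cast; linarith)⟩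
  · simp only [mem_insert, mem_singleton, not_or]
    exact ⟨ne1 (by simp [ptB]), ne1 (by simp only [ptB, ptD]; push_cast; linarith),
      ne1 (by simp only [ptB, ptD]; push_cast; linarith)⟩

lemma ptA_mem {m i : ℕ} (h : i ≤ m) : ptA m i ∈ conf m := mem_conf.2 (Or.inl (Or.inl ⟨i, h, rfl⟩))
lemma ptC_mem {m i : ℕ} (h : i ≤ m) : ptC m i ∈ conf m := mem_conf.2 (Or.inl (Or.inr ⟨i, h, rfl⟩))
lemma ptB_mem {m i : ℕ} (h : i < m) : ptB i ∈ conf m := mem_conf.2 (Or.inr (Or.inl ⟨i, h, rfl⟩))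
lemma ptD_mem {m i : ℕ} (h : i < m) : ptD m i ∈ conf m := mem_conf.2 (Or.inr (Or.inr ⟨i, h, rfl⟩))

lemma ptA_inj {m : ℕ} (hm : 2 ≤ m) : Function.Injective (ptA m) := by
  intro i j h
  have h1 := congrArg Prod.fst h
  simp only [ptA] at h1
  have hM : (0 : ℝ) < (m : ℝ) ^ 2 := by positivity
  have : (i : ℝ) = j := by
    have := mul_right_cancel₀ hM.ne' h1
    linarith
  exact_mod_cast this

theorem not_subConfig {m n : ℕ} (hm : 2 ≤ m) (hn : 2 ≤ n) (hmn : m ≠ n) :
    ¬ SubConfig (conf m) (conf n) := by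
  rintro ⟨U, hU, f, hf, hor⟩
  have hmaps : ∀ p ∈ conf m, f p ∈ conf n := fun p hp => hU (hf.mapsTo hp)
  have hinj : Set.InjOn f (conf m) := hf.injOn
  obtain ⟨hmid, s, hs, htop, hbot⟩ := embed_levels conf_levels hmaps hinj hor (four_le_mid hm)
    (ptA_mem (Nat.zero_le m)) (ptC_mem (Nat.zero_le m)) rfl rfl
  rcases lt_or_gt_of_ne hmn with hlt | hlt
  · -- the cycle of `conf m` is too short
    have hU' : ∀ j ≤ m, (f (ptA m j)).1 + (f (ptC m j)).1 = 2 * (f (ptB (j % m))).1 := by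
      intro j hj
      have hb : j % m < m := Nat.mod_lt j (by omega)
      exact transversal hs (hor _ (ptA_mem hj) _ (ptB_mem hb) _ (ptC_mem hj)) rfl rfl rfl
        (htop _ (ptA_mem hj) rfl) (hmid _ (ptB_mem hb) rfl) (hbot _ (ptC_mem hj) rfl)
        (by simp only [ptA, ptB, ptC]; ring)
    have hV : ∀ j < m, (f (ptA m (j + 1))).1 + (f (ptC m j)).1 = 2 * (f (ptD m j)).1 := by
      intro j hj
      exact transversal hs (hor _ (ptA_mem hj) _ (ptD_mem hj) _ (ptC_mem hj.le)) rfl rfl rfl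
        (htop _ (ptA_mem hj) rfl) (hmid _ (ptD_mem hj) rfl) (hbot _ (ptC_mem hj.le) rfl)
        (by simp only [ptA, ptD, ptC, Nat.mod_eq_of_lt hj]; push_cast; ring)
    have hstep : ∀ j ≤ m, |(f (ptC m j)).1 - (f (ptC m 0)).1| ≤ j * (2 * ((n : ℝ) ^ 2 + n - 1)) := by
      intro j
      induction j with
      | zero => intro _; simp
      | succ j ih =>
        intro hj
        have h1 := ih (by omega)
        have h2 := hU' (j + 1) hj
        have h3 := hV j hj
        have hb : (j + 1) % m < m := Nat.mod_lt _ (by omega)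
        have h4 := conf_mid (hmaps _ (ptB_mem hb)) (hmid _ (ptB_mem hb) rfl)
        have h5 := conf_mid (hmaps _ (ptD_mem hj)) (hmid _ (ptD_mem hj) rfl)
        rw [abs_le] at h1 ⊢
        push_cast
        constructor <;> linarith [h1.1, h1.2, h4.1, h4.2, h5.1, h5.2]
    have hclose : (f (ptA m 0)).1 + (f (ptC m 0)).1 = (f (ptA m m)).1 + (f (ptC m m)).1 := by
      rw [hU' 0 (Nat.zero_le m), hU' m le_rfl, Nat.zero_mod, Nat.mod_self]
    have hneA : f (ptA m 0) ≠ f (ptA m m) := fun h =>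
      absurd (ptA_inj hm (hinj (ptA_mem (Nat.zero_le m)) (ptA_mem le_rfl) h)) (by omega)
    have hfar : |(f (ptC m m)).1 - (f (ptC m 0)).1| = 2 * n * (n : ℝ) ^ 2 := by
      have t0 := htop _ (ptA_mem (Nat.zero_le m)) rfl
      have t1 := htop _ (ptA_mem (le_refl m)) rfl
      have c0 := hbot _ (ptC_mem (Nat.zero_le m)) rfl
      have c1 := hbot _ (ptC_mem (le_refl m)) rfl
      rcases hs with rfl | rfl
      · obtain ⟨i, -, hi⟩ := conf_top (hmaps _ (ptA_mem (Nat.zero_le m))) t0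
        obtain ⟨i', -, hi'⟩ := conf_top (hmaps _ (ptA_mem (le_refl m))) t1
        obtain ⟨j, hj, hjj⟩ := conf_bot (hmaps _ (ptC_mem (Nat.zero_le m))) c0
        obtain ⟨j', hj', hjj'⟩ := conf_bot (hmaps _ (ptC_mem (le_refl m))) c1
        rw [hi, hi', hjj, hjj'] at hclose
        rw [hi, hi'] at hneA
        rw [hjj, hjj', abs_sub_comm]
        exact (same_mid hn hj hj' (Or.inl (fun e => hneA (by rw [e]))) hclose).2
      · rw [neg_neg] at c0 c1
        obtain ⟨j, hj, hjj⟩ := conf_bot (hmaps _ (ptA_mem (Nat.zero_le m))) t0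
        obtain ⟨j', hj', hjj'⟩ := conf_bot (hmaps _ (ptA_mem (le_refl m))) t1
        obtain ⟨i, -, hi⟩ := conf_top (hmaps _ (ptC_mem (Nat.zero_le m))) c0
        obtain ⟨i', -, hi'⟩ := conf_top (hmaps _ (ptC_mem (le_refl m))) c1
        rw [hi, hi', hjj, hjj', add_comm, add_comm (ptC n j').1] at hclose
        rw [hjj, hjj'] at hneA
        rw [hi, hi', abs_sub_comm]
        exact (same_mid hn hj hj' (Or.inr (fun e => hneA (by rw [e]))) hclose).1
    have h1 := hstep m le_rfl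
    rw [hfar] at h1
    have hmn' : (m : ℝ) + 1 ≤ n := by exact_mod_cast hlt
    have hn' : (2 : ℝ) ≤ n := by exact_mod_cast hn
    have hpos : (0 : ℝ) ≤ 2 * ((n : ℝ) ^ 2 + n - 1) := by nlinarith
    have h2 : (m : ℝ) * (2 * ((n : ℝ) ^ 2 + n - 1)) ≤ (n - 1) * (2 * ((n : ℝ) ^ 2 + n - 1)) :=
      mul_le_mul_of_nonneg_right (by linarith) hpos
    nlinarith
  · -- too many points on an outer line
    have hinj' : Set.InjOn (fun i => f (ptA m i)) (range (m + 1) : Finset ℕ) := by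
      intro i hi j hj h
      simp only [coe_range, Set.mem_Iio] at hi hj
      exact ptA_inj hm (hinj (ptA_mem (by omega)) (ptA_mem (by omega)) h)
    rcases hs with rfl | rfl
    · have := card_le_card_of_injOn (t := (range (n + 1)).image (ptA n)) _ (by
        intro i hi
        simp only [coe_range, Set.mem_Iio] at hi
        have hi' : i ≤ m := by omega
        obtain ⟨k, hk, e⟩ := conf_top (hmaps _ (ptA_mem hi')) (htop _ (ptA_mem hi') rfl)
        simp only [coe_image, coe_range, Set.mem_image, Set.mem_Iio]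
        exact ⟨k, by omega, e.symm⟩) hinj'
      have h2 := card_image_le (s := range (n + 1)) (f := ptA n)
      simp only [card_range] at this h2
      omega
    · have := card_le_card_of_injOn (t := (range (n + 1)).image (ptC n)) _ (by
        intro i hi
        simp only [coe_range, Set.mem_Iio] at hi
        have hi' : i ≤ m := by omega
        obtain ⟨k, hk, e⟩ := conf_bot (hmaps _ (ptA_mem hi')) (htop _ (ptA_mem hi') rfl)
        simp only [coe_image, coe_range, Set.mem_image, Set.mem_Iio]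
        exact ⟨k, by omega, e.symm⟩) hinj'
      have h2 := card_image_le (s := range (n + 1)) (f := ptC n)
      simp only [card_range] at this h2
      omega

theorem exists_antichain : ∃ S : ℕ → Finset (ℝ × ℝ), (∀ i, InClass 6 (S i)) ∧
    ∀ i j, i ≠ j → ¬ SubConfig (S i) (S j) :=
  ⟨fun i => conf (i + 2), fun _ => conf_inClass (by omega),
    fun _ _ h => not_subConfig (by omega) (by omega) (by omega)⟩

end Pool.Agent.P.MP_708b53_co
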