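import Pool.Agent.P.MP_708b53_co.Defs

namespace Pool.Agent.P.MP_708b53_co

open Finset

lemma collinear_of_snd_eq {p q r : ℝ × ℝ} (h1 : q.2 = p.2) (h2 : r.2 = p.2) :
    Collinear ℝ ({p, q, r} : Set (ℝ × ℝ)) := by
  rw [collinear_iff_of_mem (p₀ := p) (by simp)]
  refine ⟨(1, 0), ?_⟩
  intro x hx
  refine ⟨x.1 - p.1, ?_⟩
  have hx2 : x.2 = p.2 := by
    simp only [Set.mem_insert_iff, Set.mem_singleton_iff] at hx
    rcases hx with rfl | rfl | rfl
    · rfl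
    · exact h1
    · exact h2
  ext <;> simp [hx2]

lemma card_level_le {P : Finset (ℝ × ℝ)} (hP : ConvexPos P) (y : ℝ) :
    (P.filter (fun p => p.2 = y)).card ≤ 2 := by
  by_contra h
  push Not at h
  obtain ⟨a, ha, b, hb, c, hc, hab, hac, hbc⟩ := Finset.two_lt_card.1 h
  simp only [mem_filter] at ha hb hc
  exact hP.1 a ha.1 b hb.1 c hc.1 hab hac hbc
    (collinear_of_snd_eq (by rw [hb.2, ha.2]) (by rw [hc.2, ha.2]))

lemma not_mem_hull_of_convexPos {P : Finset (ℝ × ℝ)} (hP : ConvexPos P) {p a b c : ℝ × ℝ}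
    (hp : p ∈ P) (ha : a ∈ P) (hb : b ∈ P) (hc : c ∈ P) (hap : a ≠ p) (hbp : b ≠ p) (hcp : c ≠ p)
    {t : ℝ} (ht0 : 0 ≤ t) (ht1 : t ≤ 1)
    (h : p = t • ((1 / 2 : ℝ) • a + (1 / 2 : ℝ) • c) + (1 - t) • b) : False := by
  have h1 := hP.2 p hp
  rw [(convex_convexHull ℝ _).mem_extremePoints_iff_mem_sdiff_convexHull_sdiff] at h1
  apply h1.2
  have key : ∀ x ∈ P, x ≠ p →
      x ∈ convexHull ℝ (convexHull ℝ (P : Set (ℝ × ℝ)) \ {p}) := by
    intro x hx hxp
    apply subset_convexHull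
    exact ⟨subset_convexHull ℝ _ (by exact_mod_cast hx), hxp⟩
  have hconv := convex_convexHull ℝ (convexHull ℝ (P : Set (ℝ × ℝ)) \ {p})
  have hu := hconv (key a ha hap) (key c hc hcp) (a := 1 / 2) (b := 1 / 2) (by norm_num)
    (by norm_num) (by norm_num)
  have := hconv hu (key b hb hbp) (a := t) (b := 1 - t) ht0 (by linarith) (by ring)
  rwa [← h] at this

lemma exists_pair_of_two {Q : Finset (ℝ × ℝ)} {y : ℝ} (hQ : 2 ≤ Q.card) (hy : ∀ p ∈ Q, p.2 = y) :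
    ∃ a ∈ Q, ∃ b ∈ Q, a.1 < b.1 := by
  obtain ⟨a, ha, b, hb, hab⟩ := Finset.one_lt_card.1 (show 1 < Q.card by omega)
  have : a.1 ≠ b.1 := fun h => hab (Prod.ext h (by rw [hy a ha, hy b hb]))
  rcases lt_or_gt_of_ne this with h | h
  · exact ⟨a, ha, b, hb, h⟩
  · exact ⟨b, hb, a, ha, h⟩

/-- Points on the three lines `y = 1, 0, -1`, with large gaps on the outer lines. -/
lemma inClass_six {S : Finset (ℝ × ℝ)} (hy : ∀ p ∈ S, p.2 = 1 ∨ p.2 = 0 ∨ p.2 = -1)
    (hgap : ∀ a ∈ S, ∀ a' ∈ S, ∀ c ∈ S, ∀ c' ∈ S, ∀ b ∈ S, ∀ b' ∈ S,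
      a.2 = 1 → a'.2 = 1 → c.2 = -1 → c'.2 = -1 → b.2 = 0 → b'.2 = 0 →
      a.1 < a'.1 → c.1 < c'.1 → 2 * (b'.1 - b.1) ≤ (a'.1 - a.1) + (c'.1 - c.1)) :
    InClass 6 S := by
  intro P hPS hP
  by_contra hcard
  push Not at hcard
  have h1 := card_level_le hP 1
  have h0 := card_level_le hP 0
  have hm := card_level_le hP (-1)
  have hsub : P ⊆ (P.filter (fun p => p.2 = 1)) ∪ (P.filter (fun p => p.2 = 0)) ∪
      (P.filter (fun p => p.2 = -1)) := by
    intro p hp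
    simp only [mem_union, mem_filter]
    rcases hy p (hPS hp) with h | h | h
    · exact Or.inl (Or.inl ⟨hp, h⟩)
    · exact Or.inl (Or.inr ⟨hp, h⟩)
    · exact Or.inr ⟨hp, h⟩
  have hc := card_le_card hsub
  have hc2 := card_union_le ((P.filter (fun p => p.2 = 1)) ∪ (P.filter (fun p => p.2 = 0)))
    (P.filter (fun p => p.2 = -1))
  have hc3 := card_union_le (P.filter (fun p => p.2 = 1)) (P.filter (fun p => p.2 = 0))
  obtain ⟨a, ha, a', ha', haa⟩ := exists_pair_of_two (Q := P.filter (fun p => p.2 = 1)) (y := 1)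
    (by omega) (fun p hp => (mem_filter.1 hp).2)
  obtain ⟨b, hb, b', hb', hbb⟩ := exists_pair_of_two (Q := P.filter (fun p => p.2 = 0)) (y := 0)
    (by omega) (fun p hp => (mem_filter.1 hp).2)
  obtain ⟨c, hc, c', hc', hcc⟩ := exists_pair_of_two (Q := P.filter (fun p => p.2 = -1)) (y := -1)
    (by omega) (fun p hp => (mem_filter.1 hp).2)
  simp only [mem_filter] at ha ha' hb hb' hc hc'
  have hg := hgap a (hPS ha.1) a' (hPS ha'.1) c (hPS hc.1) c' (hPS hc'.1) b (hPS hb.1) b'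
    (hPS hb'.1) ha.2 ha'.2 hc.2 hc'.2 hb.2 hb'.2 haa hcc
  have ne_of_snd : ∀ {p q : ℝ × ℝ}, p.2 ≠ q.2 → p ≠ q := fun h e => h (by rw [e])
  have ne_of_fst : ∀ {p q : ℝ × ℝ}, p.1 ≠ q.1 → p ≠ q := fun h e => h (by rw [e])
  have hA : b.1 < (a.1 + c.1) / 2 := by
    by_contra hlt
    push Not at hlt
    have hden : 0 < b'.1 - (a.1 + c.1) / 2 := by linarith
    refine not_mem_hull_of_convexPos hP hb.1 ha.1 hb'.1 hc.1
      (ne_of_snd (by rw [ha.2, hb.2]; norm_num)) (ne_of_fst hbb.ne')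
      (ne_of_snd (by rw [hc.2, hb.2]; norm_num))
      (t := (b'.1 - b.1) / (b'.1 - (a.1 + c.1) / 2)) (by apply div_nonneg <;> linarith)
      (by rw [div_le_one hden]; linarith) ?_
    ext
    · simp only [Prod.fst_add, Prod.smul_fst, smul_eq_mul]
      have e := div_mul_cancel₀ (b'.1 - b.1) hden.ne'
      linear_combination e
    · simp only [Prod.snd_add, Prod.smul_snd, smul_eq_mul, ha.2, hb.2, hc.2, hb'.2]
      ring
  have hB : (a'.1 + c'.1) / 2 < b'.1 := by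
    by_contra hlt
    push Not at hlt
    have hden : 0 < (a'.1 + c'.1) / 2 - b.1 := by linarith
    refine not_mem_hull_of_convexPos hP hb'.1 ha'.1 hb.1 hc'.1
      (ne_of_snd (by rw [ha'.2, hb'.2]; norm_num)) (ne_of_fst hbb.ne)
      (ne_of_snd (by rw [hc'.2, hb'.2]; norm_num))
      (t := (b'.1 - b.1) / ((a'.1 + c'.1) / 2 - b.1)) (by apply div_nonneg <;> linarith)
      (by rw [div_le_one hden]; linarith) ?_
    ext
    · simp only [Prod.fst_add, Prod.smul_fst, smul_eq_mul]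
      have e := div_mul_cancel₀ (b'.1 - b.1) hden.ne'
      linear_combination (-1 : ℝ) * e
    · simp only [Prod.snd_add, Prod.smul_snd, smul_eq_mul, ha'.2, hb.2, hc'.2, hb'.2]
      ring
  linarith

/-- An orientation preserving injection between configurations on the three lines sends the middle
line to the middle line and the two outer lines to the two outer lines. -/
lemma embed_levels {T S : Finset (ℝ × ℝ)} {f : ℝ × ℝ → ℝ × ℝ}
    (hS : ∀ p ∈ S, p.2 = 1 ∨ p.2 = 0 ∨ p.2 = -1)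
    (hmaps : ∀ p ∈ T, f p ∈ S) (hinj : Set.InjOn f T)
    (hor : ∀ p ∈ T, ∀ q ∈ T, ∀ r ∈ T, orient (f p) (f q) (f r) = orient p q r)
    (h4 : 4 ≤ (T.filter (fun p => p.2 = 0)).card)
    {a₀ c₀ : ℝ × ℝ} (ha₀ : a₀ ∈ T) (hc₀ : c₀ ∈ T) (ha₀y : a₀.2 = 1) (hc₀y : c₀.2 = -1) :
    (∀ b ∈ T, b.2 = 0 → (f b).2 = 0) ∧
    ∃ s : ℝ, (s = 1 ∨ s = -1) ∧ (∀ a ∈ T, a.2 = 1 → (f a).2 = s) ∧
      (∀ c ∈ T, c.2 = -1 → (f c).2 = -s) := by
  have hpig : ∃ b₁ ∈ T.filter (fun p => p.2 = 0), ∃ b₂ ∈ T.filter (fun p => p.2 = 0),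
      b₁ ≠ b₂ ∧ (f b₁).2 = (f b₂).2 := by
    apply Finset.exists_ne_map_eq_of_card_lt_of_maps_to (t := ({1, 0, -1} : Finset ℝ))
    · have : ({1, 0, -1} : Finset ℝ).card ≤ 3 := Finset.card_le_three
      omega
    · intro p hp
      have := hS _ (hmaps p (mem_filter.1 hp).1)
      simpa using this
  obtain ⟨b₁, hb₁, b₂, hb₂, hne, hyy⟩ := hpig
  simp only [mem_filter] at hb₁ hb₂
  have hx : (f b₂).1 - (f b₁).1 ≠ 0 := by
    intro h
    exact hne (hinj hb₁.1 hb₂.1 (Prod.ext (by linarith) hyy))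
  have hx' : b₂.1 - b₁.1 ≠ 0 := by
    intro h
    exact hne (Prod.ext (by linarith) (by rw [hb₁.2, hb₂.2]))
  have key : ∀ p ∈ T, SignType.sign (((f b₂).1 - (f b₁).1) * ((f p).2 - (f b₁).2)) =
      SignType.sign ((b₂.1 - b₁.1) * p.2) := by
    intro p hp
    have := hor b₁ hb₁.1 b₂ hb₂.1 p hp
    simp only [orient, hb₁.2, hb₂.2, ← hyy, sub_self, zero_mul, sub_zero] at this
    exact this
  have opp : ∀ a ∈ T, ∀ c ∈ T, a.2 = 1 → c.2 = -1 →
      ((f a).2 - (f b₁).2) * ((f c).2 - (f b₁).2) < 0 := by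
    intro a ha c hc hay hcy
    have h1 := key a ha
    have h2 := key c hc
    rw [hay, mul_one] at h1
    rw [hcy, mul_neg, mul_one, Left.sign_neg] at h2
    have h3 : SignType.sign ((((f b₂).1 - (f b₁).1) * ((f a).2 - (f b₁).2)) *
        (((f b₂).1 - (f b₁).1) * ((f c).2 - (f b₁).2))) = -1 := by
      rw [sign_mul, h1, h2]
      rcases lt_or_gt_of_ne hx' with h | h
      · rw [sign_neg h]; decide
      · rw [sign_pos h]; decide
    rw [sign_eq_neg_one_iff] at h3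
    have h4 : 0 < ((f b₂).1 - (f b₁).1) ^ 2 := by positivity
    by_contra hcon
    push Not at hcon
    nlinarith [mul_nonneg h4.le hcon]
  have hy0 : (f b₁).2 = 0 := by
    have := opp a₀ ha₀ c₀ hc₀ ha₀y hc₀y
    rcases hS _ (hmaps a₀ ha₀) with h1 | h1 | h1 <;>
    rcases hS _ (hmaps c₀ hc₀) with h2 | h2 | h2 <;>
    rcases hS _ (hmaps b₁ hb₁.1) with h3 | h3 | h3 <;>
    first
      | exact h3
      | (rw [h1, h2, h3] at this; norm_num at this)
  refine ⟨?_, (f a₀).2, ?_, ?_, ?_⟩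
  · intro b hb hby
    have h1 := key b hb
    rw [hby, mul_zero, sign_zero, sign_eq_zero_iff, hy0, sub_zero] at h1
    exact (mul_eq_zero.1 h1).resolve_left hx
  · have := opp a₀ ha₀ c₀ hc₀ ha₀y hc₀y
    rcases hS _ (hmaps a₀ ha₀) with h1 | h1 | h1
    · exact Or.inl h1
    · rw [h1, hy0] at this; norm_num at this
    · exact Or.inr h1
  · intro a ha hay
    have h1 := opp a₀ ha₀ c₀ hc₀ ha₀y hc₀y
    have h2 := opp a ha c₀ hc₀ hay hc₀y
    rw [hy0] at h1 h2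
    rcases hS _ (hmaps a₀ ha₀) with e1 | e1 | e1 <;>
    rcases hS _ (hmaps c₀ hc₀) with e2 | e2 | e2 <;>
    rcases hS _ (hmaps a ha) with e3 | e3 | e3 <;>
    first
      | (rw [e3, e1]; done)
      | (rw [e1, e2] at h1; norm_num at h1; done)
      | (rw [e3, e2] at h2; norm_num at h2)
  · intro c hc hcy
    have h1 := opp a₀ ha₀ c hc ha₀y hcy
    rw [hy0] at h1
    rcases hS _ (hmaps a₀ ha₀) with e1 | e1 | e1 <;>
    rcases hS _ (hmaps c hc) with e2 | e2 | e2 <;>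
    first
      | (rw [e1, e2] at h1; norm_num at h1; done)
      | (rw [e2, e1]; done)
      | (rw [e2, e1]; norm_num)

/-- Transversal collinearity is preserved. -/
lemma transversal {f : ℝ × ℝ → ℝ × ℝ} {a b c : ℝ × ℝ} {s : ℝ} (hs : s = 1 ∨ s = -1)
    (hor : orient (f a) (f b) (f c) = orient a b c)
    (ha : a.2 = 1) (hb : b.2 = 0) (hc : c.2 = -1)
    (ha' : (f a).2 = s) (hb' : (f b).2 = 0) (hc' : (f c).2 = -s)
    (h : a.1 + c.1 = 2 * b.1) : (f a).1 + (f c).1 = 2 * (f b).1 := by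
  have h0 : orient a b c = 0 := by
    simp only [orient, ha, hb, hc, sign_eq_zero_iff]
    linarith
  rw [h0] at hor
  simp only [orient, ha', hb', hc', sign_eq_zero_iff] at hor
  rcases hs with rfl | rfl <;> linarith

end Pool.Agent.P.MP_708b53_co
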