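import Pool.Agent.P.MP_708b53_co.Defs

/-! A configuration with no `k` points in convex position lies on boundedly many lines. -/

namespace Pool.Agent.P.MP_708b53_co

open Finset

/-- The determinant whose sign is the orientation. -/
def dt (p q r : ℝ × ℝ) : ℝ := (q.1 - p.1) * (r.2 - p.2) - (q.2 - p.2) * (r.1 - p.1)

/-- The sheared first coordinate. -/
def sh (l : ℝ) (p : ℝ × ℝ) : ℝ := p.1 + l * p.2

/-- A cup (for `ε = 1`) or a cap (for `ε = -1`). -/
def Cup (l ε : ℝ) (T : Finset (ℝ × ℝ)) : Prop :=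
  ∀ a ∈ T, ∀ b ∈ T, ∀ c ∈ T, sh l a < sh l b → sh l b < sh l c → 0 < ε * dt a b c

lemma four {l ε : ℝ} {a b c d : ℝ × ℝ} (h1 : sh l a < sh l b) (h2 : sh l b < sh l c)
    (h3 : sh l c < sh l d) (p1 : 0 < ε * dt a b c) (p2 : 0 < ε * dt b c d) :
    0 < ε * dt a c d ∧ 0 < ε * dt a b d := by
  have e1 : ε * dt a c d * (sh l c - sh l b) =
      ε * dt b c d * (sh l c - sh l a) + ε * dt a b c * (sh l d - sh l c) := by
    simp only [dt, sh]
    ring
  have e2 : ε * dt a b d * (sh l c - sh l b) =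
      ε * dt b c d * (sh l b - sh l a) + ε * dt a b c * (sh l d - sh l b) := by
    simp only [dt, sh]
    ring
  constructor
  · refine pos_of_mul_pos_left (b := sh l c - sh l b) ?_ (by linarith)
    rw [e1]
    exact add_pos (mul_pos p2 (by linarith)) (mul_pos p1 (by linarith))
  · refine pos_of_mul_pos_left (b := sh l c - sh l b) ?_ (by linarith)
    rw [e2]
    exact add_pos (mul_pos p2 (by linarith)) (mul_pos p1 (by linarith))

lemma dt_eq_zero {s : Set (ℝ × ℝ)} (h : Collinear ℝ s) {a b c : ℝ × ℝ} (ha : a ∈ s) (hb : b ∈ s)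
    (hc : c ∈ s) : dt a b c = 0 := by
  obtain ⟨p, v, hv⟩ := (collinear_iff_exists_forall_eq_smul_vadd s).1 h
  obtain ⟨x, rfl⟩ := hv a ha
  obtain ⟨y, rfl⟩ := hv b hb
  obtain ⟨z, rfl⟩ := hv c hc
  simp only [dt, vadd_eq_add, Prod.fst_add, Prod.snd_add, Prod.smul_fst, Prod.smul_snd,
    smul_eq_mul]
  ring

lemma Cup.convexPos {l ε : ℝ} {T : Finset (ℝ × ℝ)} (hinj : Set.InjOn (sh l) T)
    (h : Cup l ε T) : ConvexPos T := by
  classical
  refine ⟨fun p hp q hq r hr hpq hpr hqr hc => ?_, fun p hp => ?_⟩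
  · have key : ∀ a ∈ ({p, q, r} : Set (ℝ × ℝ)), ∀ b ∈ ({p, q, r} : Set (ℝ × ℝ)),
        ∀ c ∈ ({p, q, r} : Set (ℝ × ℝ)), sh l a < sh l b → sh l b < sh l c → False := by
      have hT : ∀ a ∈ ({p, q, r} : Set (ℝ × ℝ)), a ∈ T := by
        rintro a (rfl | rfl | rfl) <;> assumption
      intro a ha b hb c hc' u v
      have := h a (hT a ha) b (hT b hb) c (hT c hc') u v
      rw [dt_eq_zero hc ha hb hc', mul_zero] at this
      exact lt_irrefl _ this
    have m1 : p ∈ ({p, q, r} : Set (ℝ × ℝ)) := by simp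
    have m2 : q ∈ ({p, q, r} : Set (ℝ × ℝ)) := by simp
    have m3 : r ∈ ({p, q, r} : Set (ℝ × ℝ)) := by simp
    rcases (hinj.ne hp hq hpq).lt_or_gt with u | u <;>
      rcases (hinj.ne hp hr hpr).lt_or_gt with v | v <;>
      rcases (hinj.ne hq hr hqr).lt_or_gt with w | w
    · exact key p m1 q m2 r m3 u w
    · exact key p m1 r m3 q m2 v w
    · linarith
    · exact key r m3 p m1 q m2 v u
    · exact key q m2 p m1 r m3 u v
    · linarith
    · exact key q m2 r m3 p m1 w v
    · exact key r m3 q m2 p m1 w u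
  · obtain ⟨s, f⟩ : ∃ s η : ℝ, ∀ q ∈ T, q ≠ p →
        s * sh l q - η * q.2 < s * sh l p - η * p.2 := by
      let sl : ℝ × ℝ → ℝ := fun a => ε * (a.2 - p.2) / (sh l a - sh l p)
      obtain ⟨s, s1, s2⟩ := Finset.exists_between'
        ((T.filter fun a => sh l a < sh l p).image sl)
        ((T.filter fun a => sh l p < sh l a).image sl) (by
          simp only [mem_image, mem_filter]
          rintro _ ⟨a, ⟨a1, a2⟩, rfl⟩ _ ⟨c, ⟨c1, c2⟩, rfl⟩
          have := h a a1 p hp c c1 a2 c2
          simp only [sl]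
          rw [← neg_div_neg_eq, div_lt_div_iff₀ (by linarith) (by linarith)]
          simp only [dt, sh] at this ⊢
          linarith)
      refine ⟨s, ε, fun q hq hqp => ?_⟩
      rcases (hinj.ne hq hp hqp).lt_or_gt with u | u
      · have := s1 _ (mem_image_of_mem _ (mem_filter.2 ⟨hq, u⟩))
        simp only [sl] at this
        rw [div_lt_iff_of_neg (by linarith)] at this
        linarith
      · have := s2 _ (mem_image_of_mem _ (mem_filter.2 ⟨hq, u⟩))
        simp only [sl] at this
        rw [lt_div_iff₀ (by linarith)] at this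
        linarith
    obtain ⟨η, f⟩ := f
    let g : StrongDual ℝ (ℝ × ℝ) :=
      s • ContinuousLinearMap.fst ℝ ℝ ℝ + (s * l - η) • ContinuousLinearMap.snd ℝ ℝ ℝ
    have hg : ∀ q, g q = s * sh l q - η * q.2 := fun q => by
      simp only [g, sh, add_apply, smul_apply,
        ContinuousLinearMap.coe_fst', ContinuousLinearMap.coe_snd', smul_eq_mul]
      ring
    have hC : convexHull ℝ (T : Set (ℝ × ℝ)) ⊆ {y | g y < g p ∨ y = p} := by
      refine convexHull_min (fun q hq => ?_) ?_
      · by_cases e : q = p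
        · exact .inr e
        · exact .inl (by rw [hg, hg]; exact f q hq e)
      · intro y hy z hz a b ha hb hab
        simp only [Set.mem_ofPred_eq, map_add, map_smul, smul_eq_mul]
        rcases ha.eq_or_lt with rfl | ha'
        · rw [zero_add] at hab
          simpa [hab] using hz
        rcases hb.eq_or_lt with rfl | hb'
        · rw [add_zero] at hab
          simpa [hab] using hy
        have e : g p = a * g p + b * g p := by rw [← add_mul, hab, one_mul]
        rcases hy with hy | rfl <;> rcases hz with hz | rfl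
        · exact .inl (by nlinarith)
        · exact .inl (by nlinarith)
        · exact .inl (by nlinarith)
        · exact .inr (Convex.combo_self hab _)
    refine exposedPoints_subset_extremePoints ⟨subset_convexHull _ _ hp, g, fun y hy => ?_⟩
    rcases hC hy with u | rfl
    · exact ⟨u.le, fun v => absurd u v.not_gt⟩
    · exact ⟨le_rfl, fun _ => rfl⟩

lemma Cup.insert {l ε : ℝ} {T : Finset (ℝ × ℝ)} {p q r : ℝ × ℝ} (h : Cup l ε T) (hp : p ∈ T)
    (hq : q ∈ T) (hT : ∀ a ∈ T, a = p ∨ a = q ∨ sh l a < sh l p) (h1 : sh l p < sh l q)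
    (h2 : sh l q < sh l r) (h3 : 0 < ε * dt p q r) : Cup l ε (insert r T) := by
  have k1 : ∀ a ∈ T, sh l a ≤ sh l q := fun a ha => by
    rcases hT a ha with rfl | rfl | u <;> linarith
  have k2 : ∀ a ∈ T, sh l a < sh l q → 0 < ε * dt a q r := fun a ha u => by
    rcases hT a ha with rfl | rfl | v
    · exact h3
    · exact absurd u (lt_irrefl _)
    · exact (four v h1 h2 (h a ha p hp q hq v h1) h3).1
  intro a ha b hb c hc u v
  rcases mem_insert.1 hc with rfl | hc
  · have hb : b ∈ T := (mem_insert.1 hb).resolve_left fun e => (e ▸ v).false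
    have ha : a ∈ T := (mem_insert.1 ha).resolve_left fun e => (e ▸ u.trans v).false
    by_cases e : b = q
    · exact e ▸ k2 a ha (e ▸ u)
    · have w : sh l b < sh l q := by
        rcases hT b hb with rfl | rfl | w
        · exact h1
        · exact absurd rfl e
        · linarith
      exact (four u w h2 (h a ha b hb q hq u w) (k2 b hb w)).2
  · have := k1 c hc
    exact h a ((mem_insert.1 ha).resolve_left fun e => by rw [e] at u; linarith) b
      ((mem_insert.1 hb).resolve_left fun e => by rw [e] at v; linarith) c hc u v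

/-- General position. -/
def Gen (l : ℝ) (G : Finset (ℝ × ℝ)) : Prop :=
  ∀ a ∈ G, ∀ b ∈ G, ∀ c ∈ G, sh l a < sh l b → sh l b < sh l c → dt a b c ≠ 0

/-- Erdos and Szekeres, by the colouring of the shift graph. -/
lemma exists_code {k : ℕ} {l : ℝ} {G : Finset (ℝ × ℝ)} (hG : InClass k G)
    (hinj : Set.InjOn (sh l) G) (hgen : Gen l G) :
    ∃ A : ℝ × ℝ → Finset (Fin k × Fin k), Set.InjOn A G := by
  classical
  let F : ℝ → ℝ × ℝ → ℝ × ℝ → Finset (Finset (ℝ × ℝ)) := fun ε p q => G.powerset.filter fun T =>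
    Cup l ε T ∧ p ∈ T ∧ q ∈ T ∧ ∀ a ∈ T, a = p ∨ a = q ∨ sh l a < sh l p
  let u : ℝ → ℝ × ℝ → ℝ × ℝ → ℕ := fun ε p q => (F ε p q).sup card
  have h1 : ∀ ε, ∀ p ∈ G, ∀ q ∈ G, ∃ T ∈ F ε p q, u ε p q = T.card := fun ε p hp q hq => by
    refine exists_mem_eq_sup _ ⟨{p, q}, mem_filter.2 ⟨mem_powerset.2 (by
      simp [insert_subset_iff, hp, hq]), ?_, by simp, by simp, ?_⟩⟩ _
    · simp only [Cup, mem_insert, mem_singleton]
      rintro a (rfl | rfl) b (rfl | rfl) c (rfl | rfl) x y <;> linarith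
    · simp only [mem_insert, mem_singleton]
      tauto
  have h2 : ∀ ε, ∀ p ∈ G, ∀ q ∈ G, u ε p q < k := fun ε p hp q hq => by
    obtain ⟨T, t1, t2⟩ := h1 ε p hp q hq
    obtain ⟨t3, t4, -⟩ := mem_filter.1 t1
    exact t2 ▸ hG T (mem_powerset.1 t3) (t4.convexPos (hinj.mono (mem_powerset.1 t3)))
  have h3 : ∀ ε, ∀ p ∈ G, ∀ q ∈ G, ∀ r ∈ G, sh l p < sh l q → sh l q < sh l r →
      0 < ε * dt p q r → u ε p q < u ε q r := fun ε p hp q hq r hr x y z => by
    obtain ⟨T, t1, t2⟩ := h1 ε p hp q hq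
    obtain ⟨t3, t4, t5, t6, t7⟩ := mem_filter.1 t1
    have t8 : r ∉ T := fun w => by
      rcases t7 r w with rfl | rfl | w <;> linarith
    have t9 : insert r T ∈ F ε q r := by
      refine mem_filter.2 ⟨mem_powerset.2 (insert_subset hr (mem_powerset.1 t3)),
        t4.insert t5 t6 t7 x y z, mem_insert_of_mem t6, mem_insert_self _ _, fun a ha => ?_⟩
      rcases mem_insert.1 ha with rfl | ha
      · exact .inr (.inl rfl)
      · rcases t7 a ha with rfl | rfl | w
        · exact .inr (.inr x)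
        · exact .inl rfl
        · exact .inr (.inr (w.trans x))
    have := le_sup (f := card) t9
    rw [card_insert_of_notMem t8] at this
    exact t2 ▸ this
  let A : ℝ × ℝ → Finset (Fin k × Fin k) := fun p => univ.filter fun c =>
    ∃ r ∈ G, sh l p < sh l r ∧ u 1 p r = c.1 ∧ u (-1) p r = c.2
  have h4 : ∀ p ∈ G, ∀ q ∈ G, sh l p < sh l q → A p ≠ A q := fun p hp q hq x e => by
    have : (⟨_, h2 1 p hp q hq⟩, ⟨_, h2 (-1) p hp q hq⟩) ∈ A p :=
      mem_filter.2 ⟨mem_univ _, q, hq, x, rfl, rfl⟩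
    obtain ⟨r, hr, y, r1, r2⟩ := (mem_filter.1 (e ▸ this)).2
    rcases (hgen p hp q hq r hr x y).lt_or_gt with z | z
    · exact (h3 (-1) p hp q hq r hr x y (by linarith)).ne' r2
    · exact (h3 1 p hp q hq r hr x y (by linarith)).ne' r1
  refine ⟨A, fun p hp q hq e => hinj hp hq ?_⟩
  by_contra x
  rcases Ne.lt_or_gt x with x | x
  · exact h4 p hp q hq x e
  · exact h4 q hq p hp x e.symm

/-- The index set of the covering lines. -/
abbrev Lines (k : ℕ) : Type := Finset (Fin k × Fin k) × Finset (Fin k × Fin k)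

theorem exists_cover {k : ℕ} {S : Finset (ℝ × ℝ)} (hS : InClass k S) :
    ∃ (l : ℝ) (α β : Lines k → ℝ), Set.InjOn (sh l) S ∧
      ∀ p ∈ S, ∃ j, p.2 = α j * sh l p + β j := by
  classical
  obtain ⟨l, hl⟩ := Infinite.exists_notMem_finset
    ((S ×ˢ S).image fun z => (z.1.1 - z.2.1) / (z.2.2 - z.1.2))
  have hinj : Set.InjOn (sh l) S := fun p hp q hq e => by
    simp only [sh] at e
    by_cases x : q.2 - p.2 = 0
    · have y : q.2 = p.2 := sub_eq_zero.1 x
      rw [y] at e
      exact Prod.ext (by linarith) y.symm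
    · exact (hl (mem_image.2 ⟨(p, q), mk_mem_product hp hq, by
        rw [div_eq_iff x]; linarith⟩)).elim
  obtain ⟨G, g1, g2⟩ := exists_max_image (S.powerset.filter (Gen l)) card ⟨∅, by simp [Gen]⟩
  obtain ⟨g3, g4⟩ := mem_filter.1 g1
  rw [mem_powerset] at g3
  obtain ⟨A, hA⟩ := exists_code (fun P x y => hS P (x.trans g3) y) (hinj.mono g3) g4
  let c := Function.invFunOn A G
  have hc : ∀ a ∈ G, c (A a) = a := fun a ha => hA.leftInvOn_invFunOn ha
  let α : Lines k → ℝ := fun j => ((c j.2).2 - (c j.1).2) / (sh l (c j.2) - sh l (c j.1))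
  refine ⟨l, α, fun j => (c j.1).2 - α j * sh l (c j.1), hinj, fun p hp => ?_⟩
  have key : ∀ a ∈ G, ∀ b ∈ G, sh l a < sh l b → dt a b p = 0 →
      ∃ j, p.2 = α j * sh l p + ((c j.1).2 - α j * sh l (c j.1)) := fun a ha b hb x y => by
    refine ⟨(A a, A b), ?_⟩
    simp only [α, hc a ha, hc b hb]
    have z : sh l b - sh l a ≠ 0 := sub_ne_zero.2 x.ne'
    field_simp
    simp only [dt, sh] at y ⊢
    linarith
  by_cases hG : p ∈ G
  · exact ⟨(A p, A p), by simp [α, hc p hG]⟩
  · by_contra q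
    have := g2 (insert p G) (mem_filter.2 ⟨mem_powerset.2 (insert_subset hp g3), ?_⟩)
    · rw [card_insert_of_notMem hG] at this
      omega
    simp only [Gen, mem_insert]
    rintro a (rfl | ha) b (rfl | hb) d (rfl | hd) x y z
    · exact x.false
    · exact x.false
    · exact (x.trans y).false
    · exact q (key b hb d hd y (by rw [← z]; simp only [dt]; ring))
    · exact y.false
    · exact q (key a ha d hd (x.trans y) (by rw [← neg_eq_zero, ← z]; simp only [dt]; ring))
    · exact q (key a ha b hb x z)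
    · exact g4 a ha b hb d hd x y z

end Pool.Agent.P.MP_708b53_co
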