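import Mathlib

namespace Pool.Agent.P.MP_708b53_co

/-- Orientation of the ordered triple `p, q, r` of points of the plane:
`1` counterclockwise, `-1` clockwise, `0` collinear. -/
noncomputable def orient (p q r : ℝ × ℝ) : SignType :=
  SignType.sign ((q.1 - p.1) * (r.2 - p.2) - (q.2 - p.2) * (r.1 - p.1))

/-- `S` and `T` have the same order type. -/
def SameOrderType (S T : Finset (ℝ × ℝ)) : Prop :=
  ∃ f : ℝ × ℝ → ℝ × ℝ, Set.BijOn f S T ∧
    ∀ p ∈ S, ∀ q ∈ S, ∀ r ∈ S, orient (f p) (f q) (f r) = orient p q r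

/-- `T` is a subconfiguration of `S`. -/
def SubConfig (T S : Finset (ℝ × ℝ)) : Prop :=
  ∃ U ⊆ S, SameOrderType T U

/-- No three points collinear, and every point is a vertex of the convex hull. -/
def ConvexPos (P : Finset (ℝ × ℝ)) : Prop :=
  (∀ p ∈ P, ∀ q ∈ P, ∀ r ∈ P, p ≠ q → p ≠ r → q ≠ r → ¬ Collinear ℝ {p, q, r}) ∧
    ∀ p ∈ P, p ∈ (convexHull ℝ (P : Set (ℝ × ℝ))).extremePoints ℝ

/-- `MAXCONVEX(S) < k`. -/
def InClass (k : ℕ) (S : Finset (ℝ × ℝ)) : Prop :=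
  ∀ P ⊆ S, ConvexPos P → P.card < k

/-- `c_k(n)`: the number of order types of `n`-point configurations with `MAXCONVEX < k`. -/
noncomputable def numTypes (k n : ℕ) : ℕ :=
  Nat.card (Quot fun S T : {S : Finset (ℝ × ℝ) // S.card = n ∧ InClass k S} =>
    SameOrderType S.1 T.1)

end Pool.Agent.P.MP_708b53_co
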