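import Pool.Agent.P.MP_708b53_co.Basic
import Pool.Agent.Lib.SignPatterns.Warren

namespace Pool.Agent.P.MP_708b53_co

open Finset

lemma sameOrderType_refl (S : Finset (ℝ × ℝ)) : SameOrderType S S :=
  ⟨id, Set.bijOn_id _, fun _ _ _ _ _ _ => rfl⟩

lemma sameOrderType_symm {S T : Finset (ℝ × ℝ)} (h : SameOrderType S T) : SameOrderType T S := by
  obtain ⟨f, hf, hor⟩ := h
  have hinv := hf.invOn_invFunOn
  have hg : Set.BijOn (Function.invFunOn f S) T S := Set.BijOn.symm hinv.symm hf
  refine ⟨Function.invFunOn f S, hg, ?_⟩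
  intro p hp q hq r hr
  have := hor _ (hg.mapsTo hp) _ (hg.mapsTo hq) _ (hg.mapsTo hr)
  rw [hinv.2 hp, hinv.2 hq, hinv.2 hr] at this
  exact this.symm

lemma sameOrderType_trans {S T U : Finset (ℝ × ℝ)} (h : SameOrderType S T)
    (h' : SameOrderType T U) : SameOrderType S U := by
  obtain ⟨f, hf, hor⟩ := h
  obtain ⟨g, hg, hor'⟩ := h'
  refine ⟨g ∘ f, hg.comp hf, ?_⟩
  intro p hp q hq r hr
  simp only [Function.comp]
  rw [hor' _ (hf.mapsTo hp) _ (hf.mapsTo hq) _ (hf.mapsTo hr), hor p hp q hq r hr]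

/-- The type of order types counted by `numTypes`. -/
abbrev Types (k n : ℕ) : Type :=
  Quot fun S T : {S : Finset (ℝ × ℝ) // S.card = n ∧ InClass k S} => SameOrderType S.1 T.1

lemma types_equiv (k n : ℕ) : Equivalence
    fun S T : {S : Finset (ℝ × ℝ) // S.card = n ∧ InClass k S} => SameOrderType S.1 T.1 :=
  ⟨fun _ => sameOrderType_refl _, sameOrderType_symm, sameOrderType_trans⟩

section Upper

open MvPolynomial

noncomputable def orPoly (n : ℕ) (t : Fin n × Fin n × Fin n) : MvPolynomial (Fin n ⊕ Fin n) ℝ :=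
  (X (Sum.inl t.2.1) - X (Sum.inl t.1)) * (X (Sum.inr t.2.2) - X (Sum.inr t.1)) -
    (X (Sum.inr t.2.1) - X (Sum.inr t.1)) * (X (Sum.inl t.2.2) - X (Sum.inl t.1))

lemma orPoly_deg (n : ℕ) (t : Fin n × Fin n × Fin n) : (orPoly n t).totalDegree ≤ 2 := by
  have h : ∀ a b : Fin n ⊕ Fin n, (X a - X b : MvPolynomial (Fin n ⊕ Fin n) ℝ).totalDegree ≤ 1 :=
    fun a b => (totalDegree_sub _ _).trans (max_le (by simp) (by simp))
  have h2 : ∀ a b c d : Fin n ⊕ Fin n,
      ((X a - X b) * (X c - X d) : MvPolynomial (Fin n ⊕ Fin n) ℝ).totalDegree ≤ 2 :=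
    fun a b c d => (totalDegree_mul _ _).trans (Nat.add_le_add (h a b) (h c d))
  exact (totalDegree_sub _ _).trans (max_le (h2 _ _ _ _) (h2 _ _ _ _))

lemma card_types_le (k n : ℕ) (Q : Finset (Types k n)) :
    Q.card ≤ (2 * n * (4 * n ^ 3 + 2) + 1) ^ (2 * n) := by
  classical
  have hen : ∀ q : Types k n, ∃ e : Fin n → ℝ × ℝ, Set.BijOn e Set.univ (q.out.1 : Set (ℝ × ℝ)) := by
    intro q
    let e := (Finset.equivFinOfCardEq q.out.2.1).symm
    refine ⟨fun i => (e i).1, fun i _ => (e i).2, fun i _ j _ h => e.injective (Subtype.ext h), ?_⟩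
    intro p hp
    exact ⟨e.symm ⟨p, hp⟩, Set.mem_univ _, by simp⟩
  choose e he using hen
  let x : Types k n → (Fin n ⊕ Fin n → ℝ) :=
    fun q => Sum.elim (fun i => (e q i).1) (fun i => (e q i).2)
  have hx : ∀ q t, SignType.sign (eval (x q) (orPoly n t)) =
      orient (e q t.1) (e q t.2.1) (e q t.2.2) := by
    intro q t
    simp [orPoly, orient, x]
  have hsep : ∀ q q', (∀ t, SignType.sign (eval (x q) (orPoly n t)) =
      SignType.sign (eval (x q') (orPoly n t))) → q = q' := by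
    intro q q' h
    rw [← Quot.out_eq q, ← Quot.out_eq q']
    apply Quot.sound
    rcases Nat.eq_zero_or_pos n with rfl | hn
    · have h1 := card_eq_zero.1 q.out.2.1
      have h2 := card_eq_zero.1 q'.out.2.1
      rw [h1, h2]
      exact sameOrderType_refl _
    · have : Nonempty (Fin n) := ⟨⟨0, hn⟩⟩
      have hinv := (he q).invOn_invFunOn
      have hg : Set.BijOn (Function.invFunOn (e q) Set.univ) (q.out.1 : Set (ℝ × ℝ)) Set.univ :=
        Set.BijOn.symm hinv.symm (he q)
      refine ⟨e q' ∘ Function.invFunOn (e q) Set.univ, (he q').comp hg, ?_⟩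
      intro p hp r hr s hs
      have := h (Function.invFunOn (e q) Set.univ p, Function.invFunOn (e q) Set.univ r,
        Function.invFunOn (e q) Set.univ s)
      rw [hx, hx] at this
      simp only [hinv.2 hp, hinv.2 hr, hinv.2 hs] at this
      exact this.symm
  have hxinj : Function.Injective x := fun q q' h => hsep q q' fun t => by rw [h]
  have := Pool.Agent.Lib.SignPatterns.card_le_of_sign (orPoly n) 2 (orPoly_deg n) (Q.image x) (by
    intro y hy z hz h
    obtain ⟨q, -, rfl⟩ := mem_image.1 hy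
    obtain ⟨q', -, rfl⟩ := mem_image.1 hz
    rw [hsep q q' h])
  rw [card_image_of_injective _ hxinj] at this
  simp only [Fintype.card_sum, Fintype.card_fin, Fintype.card_prod] at this
  refine this.trans (le_of_eq ?_)
  congr 1 <;> ring

lemma finite_types (k n : ℕ) : Finite (Types k n) := by
  by_contra h
  have : Infinite (Types k n) := not_finite_iff_infinite.1 h
  obtain ⟨Q, hQ⟩ := Infinite.exists_subset_card_eq (Types k n)
    ((2 * n * (4 * n ^ 3 + 2) + 1) ^ (2 * n) + 1)
  have := card_types_le k n Q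
  omega

lemma numTypes_le (k n : ℕ) : numTypes k n ≤ (2 * n * (4 * n ^ 3 + 2) + 1) ^ (2 * n) := by
  have := finite_types k n
  have := Fintype.ofFinite (Types k n)
  change Nat.card (Types k n) ≤ _
  rw [Nat.card_eq_fintype_card]
  exact card_types_le k n univ

end Upper

section Lower

noncomputable def tA (m i : ℕ) : ℝ × ℝ := (2 * (i : ℝ) * m, 1)
noncomputable def tB {m : ℕ} (k : Fin m) : ℝ × ℝ := (((k : ℕ) : ℝ), 0)
noncomputable def tC {m : ℕ} (π : Fin m → Fin m) (j : Fin m) : ℝ × ℝ :=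
  (-2 * ((j : ℕ) : ℝ) * m + 2 * ((π j : ℕ) : ℝ), -1)

noncomputable def fam (p : ℕ) {m : ℕ} (π : Fin m → Fin m) : Finset (ℝ × ℝ) :=
  ((range p).image (tA m) ∪ univ.image (tB (m := m))) ∪ univ.image (tC π)

lemma mem_fam {p m : ℕ} {π : Fin m → Fin m} {x : ℝ × ℝ} : x ∈ fam p π ↔
    ((∃ i < p, x = tA m i) ∨ (∃ k : Fin m, x = tB k)) ∨ ∃ j, x = tC π j := by
  simp only [fam, mem_union, mem_image, mem_range, mem_univ, true_and, eq_comm (a := x)]

lemma fam_levels {p m : ℕ} {π : Fin m → Fin m} : ∀ x ∈ fam p π, x.2 = 1 ∨ x.2 = 0 ∨ x.2 = -1 := by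
  intro x hx
  rcases mem_fam.1 hx with (⟨i, -, rfl⟩ | ⟨i, rfl⟩) | ⟨i, rfl⟩ <;> simp [tA, tB, tC]

lemma fam_top {p m : ℕ} {π : Fin m → Fin m} {x : ℝ × ℝ} (hx : x ∈ fam p π) (h : x.2 = 1) :
    ∃ i < p, x = tA m i := by
  rcases mem_fam.1 hx with (⟨i, hi, rfl⟩ | ⟨i, rfl⟩) | ⟨i, rfl⟩
  · exact ⟨i, hi, rfl⟩
  all_goals (simp only [tB, tC] at h; norm_num at h)

lemma fam_mid {p m : ℕ} {π : Fin m → Fin m} {x : ℝ × ℝ} (hx : x ∈ fam p π) (h : x.2 = 0) :
    ∃ k : Fin m, x = tB k := by
  rcases mem_fam.1 hx with (⟨i, -, rfl⟩ | ⟨i, rfl⟩) | ⟨i, rfl⟩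
  · simp only [tA] at h; norm_num at h
  · exact ⟨i, rfl⟩
  · simp only [tC] at h; norm_num at h

lemma fam_bot {p m : ℕ} {π : Fin m → Fin m} {x : ℝ × ℝ} (hx : x ∈ fam p π) (h : x.2 = -1) :
    ∃ j, x = tC π j := by
  rcases mem_fam.1 hx with (⟨i, -, rfl⟩ | ⟨i, rfl⟩) | ⟨i, rfl⟩
  · simp only [tA] at h; norm_num at h
  · simp only [tB] at h; norm_num at h
  · exact ⟨i, rfl⟩

lemma fin_bounds {m : ℕ} (k : Fin m) : (0 : ℝ) ≤ ((k : ℕ) : ℝ) ∧ ((k : ℕ) : ℝ) + 1 ≤ m :=
  ⟨by positivity, by exact_mod_cast k.2⟩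

lemma tC_anti {m : ℕ} (π : Fin m → Fin m) {j j' : Fin m} (h : j < j') :
    (tC π j').1 + 2 ≤ (tC π j).1 := by
  have h1 : ((j : ℕ) : ℝ) + 1 ≤ (j' : ℕ) := by exact_mod_cast h
  have h2 := fin_bounds (π j)
  have h3 := fin_bounds (π j')
  have hm : (0 : ℝ) ≤ m := by positivity
  simp only [tC]
  nlinarith [mul_le_mul_of_nonneg_right h1 hm]

lemma lt_of_tC_lt {m : ℕ} (π : Fin m → Fin m) {j j' : Fin m} (h : (tC π j').1 < (tC π j).1) :
    j < j' := by
  by_contra hc
  push Not at hc
  rcases hc.eq_or_lt with rfl | hc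
  · exact lt_irrefl _ h
  · have := tC_anti π hc
    linarith

lemma tA_inj {m : ℕ} (hm : 0 < m) : Function.Injective (tA m) := by
  intro i j h
  have h1 := congrArg Prod.fst h
  simp only [tA] at h1
  have hM : (0 : ℝ) < m := by positivity
  have : (i : ℝ) = j := by
    have := mul_right_cancel₀ hM.ne' h1
    linarith
  exact_mod_cast this

lemma tB_inj {m : ℕ} : Function.Injective (tB (m := m)) := by
  intro i j h
  have h1 := congrArg Prod.fst h
  simp only [tB] at h1
  exact Fin.ext (by exact_mod_cast h1)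

lemma tC_inj {m : ℕ} (π : Fin m → Fin m) : Function.Injective (tC π) := by
  intro i j h
  have h1 := congrArg Prod.fst h
  rcases lt_trichotomy i j with hij | hij | hij
  · have := tC_anti π hij; linarith
  · exact hij
  · have := tC_anti π hij; linarith

lemma card_fam {p m : ℕ} (hm : 0 < m) (π : Fin m → Fin m) : (fam p π).card = p + m + m := by
  rw [fam, card_union_of_disjoint, card_union_of_disjoint, card_image_of_injective _ (tA_inj hm),
    card_image_of_injective _ tB_inj, card_image_of_injective _ (tC_inj π)]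
  · simp
  · rw [disjoint_left]
    intro x h1 h2
    obtain ⟨i, -, rfl⟩ := mem_image.1 h1
    obtain ⟨j, -, h⟩ := mem_image.1 h2
    have := congrArg Prod.snd h
    simp [tA, tB] at this
  · rw [disjoint_left]
    intro x h1 h2
    obtain ⟨j, -, rfl⟩ := mem_image.1 h2
    rcases mem_union.1 h1 with h1 | h1
    · obtain ⟨i, -, h⟩ := mem_image.1 h1
      have := congrArg Prod.snd h
      simp only [tA, tC] at this
      norm_num at this
    · obtain ⟨i, -, h⟩ := mem_image.1 h1
      have := congrArg Prod.snd h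
      simp only [tB, tC] at this
      norm_num at this

lemma fam_inClass {p m : ℕ} (π : Fin m → Fin m) : InClass 6 (fam p π) := by
  apply inClass_six fam_levels
  intro a ha a' ha' c hc c' hc' b hb b' hb' hay hay' hcy hcy' hby hby' haa hcc
  obtain ⟨i, -, rfl⟩ := fam_top ha hay
  obtain ⟨i', -, rfl⟩ := fam_top ha' hay'
  obtain ⟨k, rfl⟩ := fam_mid hb hby
  obtain ⟨k', rfl⟩ := fam_mid hb' hby'
  have h1 := fin_bounds k
  have h2 := fin_bounds k'
  have hM : (0 : ℝ) ≤ m := by positivity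
  simp only [tA, tB] at haa ⊢
  have hii : (i : ℝ) + 1 ≤ i' := by
    have : i < i' := by
      by_contra h
      push Not at h
      have : (i' : ℝ) ≤ i := by exact_mod_cast h
      nlinarith
    exact_mod_cast this
  nlinarith [mul_le_mul_of_nonneg_right hii hM]

lemma fam_inj {p m : ℕ} (hm : 4 ≤ m) (hp : m < p) {π σ : Fin m → Fin m}
    (h : SameOrderType (fam p π) (fam p σ)) : π = σ := by
  obtain ⟨f, hf, hor⟩ := h
  have hmaps : ∀ x ∈ fam p π, f x ∈ fam p σ := fun x hx => hf.mapsTo hx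
  have hinj : Set.InjOn f (fam p π) := hf.injOn
  have mA : ∀ i < p, tA m i ∈ fam p π := fun i hi => mem_fam.2 (Or.inl (Or.inl ⟨i, hi, rfl⟩))
  have mB : ∀ k : Fin m, tB k ∈ fam p π := fun k => mem_fam.2 (Or.inl (Or.inr ⟨k, rfl⟩))
  have mC : ∀ j, tC π j ∈ fam p π := fun j => mem_fam.2 (Or.inr ⟨j, rfl⟩)
  have h4 : 4 ≤ ((fam p π).filter (fun x => x.2 = 0)).card := by
    have hsub : univ.image (tB (m := m)) ⊆ (fam p π).filter (fun x => x.2 = 0) := by
      intro x hx
      obtain ⟨k, -, rfl⟩ := mem_image.1 hx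
      exact mem_filter.2 ⟨mB k, rfl⟩
    have := card_le_card hsub
    rw [card_image_of_injective _ tB_inj] at this
    simp only [card_univ, Fintype.card_fin] at this
    omega
  obtain ⟨hmid, s, hs, htop, hbot⟩ := embed_levels fam_levels hmaps hinj hor h4
    (mA 0 (by omega)) (mC ⟨0, by omega⟩) rfl rfl
  rcases hs with rfl | rfl
  swap
  · exfalso
    have hinj' : Set.InjOn (fun i => f (tA m i)) (range p : Finset ℕ) := by
      intro i hi j hj h
      simp only [coe_range, Set.mem_Iio] at hi hj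
      exact tA_inj (by omega) (hinj (mA i hi) (mA j hj) h)
    have := card_le_card_of_injOn (t := univ.image (tC σ)) _ (by
      intro i hi
      simp only [coe_range, Set.mem_Iio] at hi
      obtain ⟨k, e⟩ := fam_bot (hmaps _ (mA i hi)) (htop _ (mA i hi) rfl)
      simp only [coe_image, coe_univ, Set.mem_image, Set.mem_univ, true_and]
      exact ⟨k, e.symm⟩) hinj'
    have h2 := card_image_le (s := (univ : Finset (Fin m))) (f := tC σ)
    simp only [card_range, card_univ, Fintype.card_fin] at this h2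
    omega
  choose β hβ using fun k : Fin m => fam_mid (hmaps _ (mB k)) (hmid _ (mB k) rfl)
  choose χ hχ using fun j : Fin m => fam_bot (hmaps _ (mC j)) (hbot _ (mC j) rfl)
  have a0 := mA 0 (by omega)
  have a0y := htop _ a0 rfl
  have hβm : StrictMono β := by
    intro k k' hk
    have h1 := hor _ (mB k) _ (mB k') _ a0
    rw [hβ k, hβ k'] at h1
    have hk' : ((k : ℕ) : ℝ) < (k' : ℕ) := by exact_mod_cast hk
    have e2 : (tA m 0).2 = 1 := rfl
    simp only [orient, tB, a0y, e2, sub_zero, mul_one, zero_mul] at h1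
    rw [sign_pos (sub_pos.2 hk'), sign_eq_one_iff, sub_pos] at h1
    exact_mod_cast h1
  have hχm : StrictMono χ := by
    intro j j' hj
    have h1 := hor _ (mC j) _ (mC j') _ a0
    rw [hχ j, hχ j'] at h1
    have h2 := tC_anti π hj
    have e1 : ∀ (τ : Fin m → Fin m) (i : Fin m), (tC τ i).2 = -1 := fun _ _ => rfl
    have e2 : (tA m 0).2 = 1 := rfl
    simp only [orient, e1, e2, a0y, sub_self, zero_mul, sub_zero] at h1
    rw [sign_neg (a := ((tC π j').1 - (tC π j).1) * (1 - -1)) (by linarith),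
      sign_eq_neg_one_iff] at h1
    exact lt_of_tC_lt σ (by linarith)
  funext j
  have hjp : (j : ℕ) < p := j.2.trans hp
  have h1 := transversal (Or.inl rfl) (hor _ (mA j hjp) _ (mB (π j)) _ (mC j)) rfl rfl rfl
    (htop _ (mA j hjp) rfl) (hmid _ (mB (π j)) rfl) (hbot _ (mC j) rfl)
    (by simp only [tA, tB, tC]; ring)
  obtain ⟨i, -, hi⟩ := fam_top (hmaps _ (mA j hjp)) (htop _ (mA j hjp) rfl)
  rw [hi, hβ, hχ, hβm.apply_eq, hχm.apply_eq] at h1
  simp only [tA, tB, tC] at h1
  have b1 := fin_bounds (π j)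
  have b2 := fin_bounds (σ j)
  have hM : (0 : ℝ) ≤ m := by positivity
  have hij : i = j := by
    rcases lt_trichotomy i j with hij | hij | hij
    · have : (i : ℝ) + 1 ≤ (j : ℕ) := by exact_mod_cast hij
      nlinarith [mul_le_mul_of_nonneg_right this hM]
    · exact hij
    · have : ((j : ℕ) : ℝ) + 1 ≤ i := by exact_mod_cast hij
      nlinarith [mul_le_mul_of_nonneg_right this hM]
  rw [hij] at h1
  have : ((π j : ℕ) : ℝ) = (σ j : ℕ) := by linarith
  exact Fin.ext (by exact_mod_cast this)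

lemma le_numTypes {n m : ℕ} (hm : 4 ≤ m) (hn : 3 * m < n) : m ^ m ≤ numTypes 6 n := by
  have := finite_types 6 n
  let g : (Fin m → Fin m) → Types 6 n := fun π =>
    Quot.mk _ ⟨fam (n - 2 * m) π, by rw [card_fam (by omega)]; omega, fam_inClass π⟩
  have hg : Function.Injective g := by
    intro π σ h
    have := (types_equiv 6 n).eqvGen_iff.1 (Quot.eqvGen_exact h)
    exact fam_inj hm (by omega) this
  have := Nat.card_le_card_of_injective g hg
  change _ ≤ Nat.card (Types 6 n)
  simpa using this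

end Lower

theorem growth (n : ℕ) (hn : 16 ≤ n) :
    Real.exp ((n : ℝ) * Real.log n / 8) ≤ numTypes 6 n ∧
      (numTypes 6 n : ℝ) ≤ Real.exp (10 * (n : ℝ) * Real.log n) := by
  have hn' : (16 : ℝ) ≤ n := by exact_mod_cast hn
  have hn0 : (0 : ℝ) < n := by linarith
  constructor
  · set m := (n - 1) / 3 with hm
    have h1 : m ^ m ≤ numTypes 6 n := le_numTypes (by omega) (by omega)
    have h2 : (n : ℝ) ≤ 4 * m := by
      have : n ≤ 4 * m := by omega
      exact_mod_cast this
    have hm0 : (0 : ℝ) < m := by linarith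
    have h3 : Real.log n ≤ 2 * Real.log m := by
      have : Real.log n ≤ Real.log ((m : ℝ) ^ 2) := Real.log_le_log hn0 (by nlinarith)
      rwa [Real.log_pow, Nat.cast_ofNat] at this
    have h4 : 0 ≤ Real.log n := Real.log_nonneg (by linarith)
    calc Real.exp ((n : ℝ) * Real.log n / 8) ≤ Real.exp (m * Real.log m) := by
          apply Real.exp_le_exp.2
          have : (n : ℝ) * Real.log n ≤ (4 * m) * (2 * Real.log m) :=
            mul_le_mul h2 h3 h4 (by positivity)
          linarith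
      _ = (m : ℝ) ^ m := by rw [← Real.log_pow, Real.exp_log (by positivity)]
      _ ≤ numTypes 6 n := by exact_mod_cast h1
  · have h1 := numTypes_le 6 n
    have h2 : 2 * n * (4 * n ^ 3 + 2) + 1 ≤ n ^ 5 := by
      have h3 : 16 * n ^ 4 ≤ n ^ 5 := by
        calc 16 * n ^ 4 ≤ n * n ^ 4 := Nat.mul_le_mul_right _ hn
          _ = n ^ 5 := by ring
      have h4 : n ≤ n ^ 4 := Nat.le_self_pow (by norm_num) n
      nlinarith
    calc (numTypes 6 n : ℝ) ≤ (((n ^ 5) ^ (2 * n) : ℕ) : ℝ) := by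
          exact_mod_cast h1.trans (Nat.pow_le_pow_left h2 _)
      _ = Real.exp (10 * (n : ℝ) * Real.log n) := by
          have : 10 * (n : ℝ) * Real.log n = Real.log ((n : ℝ) ^ (5 * (2 * n))) := by
            rw [Real.log_pow]; push_cast; ring
          rw [this, Real.exp_log (by positivity), ← pow_mul]
          push_cast
          rfl

end Pool.Agent.P.MP_708b53_co
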