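import Pool.Agent.P.MP_708b53_co.Growth

/-! The lower bound `(n / (C log n))^n ≤ c_k(n)` for `k ≥ 6`: a zigzag family on three lines. -/

namespace Pool.Agent.P.MP_708b53_co

open Finset Filter

lemma level_lt {P P' Z Q Q' W : ℝ × ℝ} (h : orient Q Q' W = orient P P' Z) (hP : P'.2 = P.2)
    (hQ : Q.2 = P.2) (hQ' : Q'.2 = P.2) (hW : W.2 = Z.2) (hZ : Z.2 ≠ P.2) (hlt : P.1 < P'.1) :
    Q.1 < Q'.1 := by
  simp only [orient, hP, hQ, hQ', hW, sub_self, zero_mul, sub_zero] at h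
  rcases hZ.lt_or_gt with u | u
  · rw [sign_neg (mul_neg_of_pos_of_neg (sub_pos.2 hlt) (sub_neg.2 u)), sign_eq_neg_one_iff] at h
    nlinarith
  · rw [sign_pos (mul_pos (sub_pos.2 hlt) (sub_pos.2 u)), sign_eq_one_iff] at h
    nlinarith

variable {p m r : ℕ}

/-- Points on the lines `y = 1, 0, -1` with given first coordinates. -/
noncomputable def tri (A : Fin p → ℝ) (B : Fin m → ℝ) (C : Fin r → ℝ) : Finset (ℝ × ℝ) :=
  ((univ.image fun i => (A i, 1)) ∪ univ.image fun i => (B i, 0)) ∪ univ.image fun i => (C i, -1)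

variable {A A' : Fin p → ℝ} {B B' : Fin m → ℝ} {C C' : Fin r → ℝ}

lemma mem_tri {x : ℝ × ℝ} : x ∈ tri A B C ↔
    ((∃ i, x = (A i, 1)) ∨ ∃ i, x = (B i, 0)) ∨ ∃ i, x = (C i, -1) := by
  simp only [tri, mem_union, mem_image, mem_univ, true_and, eq_comm (a := x)]

lemma tri_levels : ∀ x ∈ tri A B C, x.2 = 1 ∨ x.2 = 0 ∨ x.2 = -1 := by
  intro x hx
  rcases mem_tri.1 hx with (⟨i, rfl⟩ | ⟨i, rfl⟩) | ⟨i, rfl⟩ <;> simp

lemma tri_top {x : ℝ × ℝ} (hx : x ∈ tri A B C) (h : x.2 = 1) : ∃ i, x = (A i, 1) := by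
  rcases mem_tri.1 hx with (⟨i, rfl⟩ | ⟨i, rfl⟩) | ⟨i, rfl⟩
  · exact ⟨i, rfl⟩
  all_goals norm_num at h

lemma tri_mid {x : ℝ × ℝ} (hx : x ∈ tri A B C) (h : x.2 = 0) : ∃ i, x = (B i, 0) := by
  rcases mem_tri.1 hx with (⟨i, rfl⟩ | ⟨i, rfl⟩) | ⟨i, rfl⟩
  · norm_num at h
  · exact ⟨i, rfl⟩
  · norm_num at h

lemma tri_bot {x : ℝ × ℝ} (hx : x ∈ tri A B C) (h : x.2 = -1) : ∃ i, x = (C i, -1) := by
  rcases mem_tri.1 hx with (⟨i, rfl⟩ | ⟨i, rfl⟩) | ⟨i, rfl⟩
  · norm_num at h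
  · norm_num at h
  · exact ⟨i, rfl⟩

lemma card_level {ι : Type} [Fintype ι] {A : ι → ℝ} (hA : Function.Injective A) (y : ℝ) :
    (univ.image fun i => (A i, y)).card = Fintype.card ι :=
  card_image_of_injective _ fun _ _ h => hA (congrArg Prod.fst h)

lemma card_tri (hA : Function.Injective A) (hB : Function.Injective B)
    (hC : Function.Injective C) : (tri A B C).card = p + m + r := by
  rw [tri, card_union_of_disjoint, card_union_of_disjoint, card_level hA, card_level hB,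
    card_level hC]
  · simp
  · simp [disjoint_left]
  · simp only [disjoint_left, mem_union, mem_image, mem_univ, true_and]
    rintro _ (⟨i, rfl⟩ | ⟨i, rfl⟩) ⟨j, h⟩ <;> norm_num at h

lemma tri_rigid (hA : StrictMono A) (hA' : StrictMono A') (hB : StrictMono B)
    (hB' : StrictMono B') (hC : StrictAnti C) (hC' : StrictAnti C') (hm : 4 ≤ m) (hp : r < p)
    (h : SameOrderType (tri A B C) (tri A' B' C')) (i : Fin p) (j : Fin r) (k : Fin m)
    (e : A i + C j = 2 * B k) : A' i + C' j = 2 * B' k := by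
  obtain ⟨f, hf, hor⟩ := h
  have hmaps : ∀ x ∈ tri A B C, f x ∈ tri A' B' C' := fun x hx => hf.mapsTo hx
  have mA : ∀ i, (A i, 1) ∈ tri A B C := fun i => mem_tri.2 (.inl (.inl ⟨i, rfl⟩))
  have mB : ∀ i, (B i, 0) ∈ tri A B C := fun i => mem_tri.2 (.inl (.inr ⟨i, rfl⟩))
  have mC : ∀ i, (C i, -1) ∈ tri A B C := fun i => mem_tri.2 (.inr ⟨i, rfl⟩)
  have h4 : 4 ≤ ((tri A B C).filter fun x => x.2 = 0).card := by
    refine le_trans ?_ (card_le_card (s := univ.image fun i => (B i, (0 : ℝ))) fun x hx => ?_)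
    · rwa [card_level hB.injective, Fintype.card_fin]
    · obtain ⟨k, -, rfl⟩ := mem_image.1 hx
      exact mem_filter.2 ⟨mB k, rfl⟩
  obtain ⟨hmid, s, hs, htop, hbot⟩ := embed_levels tri_levels hmaps hf.injOn hor h4
    (mA i) (mC j) rfl rfl
  rcases hs with rfl | rfl
  swap
  · choose χ hχ using fun i => tri_bot (hmaps _ (mA i)) (htop _ (mA i) rfl)
    have := Fintype.card_le_of_injective χ fun i j x => hA.injective
      (congrArg Prod.fst (hf.injOn (mA i) (mA j) (by rw [hχ, hχ, x])))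
    simp only [Fintype.card_fin] at this
    omega
  choose a ha using fun i => tri_top (hmaps _ (mA i)) (htop _ (mA i) rfl)
  choose b hb using fun i => tri_mid (hmaps _ (mB i)) (hmid _ (mB i) rfl)
  choose c hc using fun i => tri_bot (hmaps _ (mC i)) (hbot _ (mC i) rfl)
  have a1 : StrictMono a := fun u v x => hA'.lt_iff_lt.1 (by
    simpa only [ha] using level_lt (hor _ (mA u) _ (mA v) _ (mC j)) rfl (by rw [ha]) (by rw [ha])
      (by rw [hc]) (by norm_num) (hA x))
  have b1 : StrictMono b := fun u v x => hB'.lt_iff_lt.1 (by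
    simpa only [hb] using level_lt (hor _ (mB u) _ (mB v) _ (mC j)) rfl (by rw [hb]) (by rw [hb])
      (by rw [hc]) (by norm_num) (hB x))
  have c1 : StrictMono c := fun u v x => hC'.lt_iff_gt.1 (by
    simpa only [hc] using level_lt (hor _ (mC v) _ (mC u) _ (mA i)) rfl (by rw [hc]) (by rw [hc])
      (by rw [ha]) (by norm_num) (hC x))
  simpa only [ha, hb, hc, a1.apply_eq, b1.apply_eq, c1.apply_eq] using
    transversal (.inl rfl) (hor _ (mA i) _ (mB k) _ (mC j)) rfl rfl rfl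
      (htop _ (mA i) rfl) (hmid _ (mB k) rfl) (hbot _ (mC j) rfl) e

variable {w : ℕ}

/-- Extension by zero. -/
def ex (U : Fin r → Fin w) (i : ℕ) : ℕ := if h : i < r then U ⟨i, h⟩ else 0

lemma ex_lt (hw : 0 < w) (U : Fin r → Fin w) (i : ℕ) : ex U i < w := by
  unfold ex
  split_ifs
  · exact Fin.is_lt _
  · exact hw

/-- First coordinates on the upper line. -/
def zA (p : ℕ) (U : Fin r → Fin w) (i : Fin p) : ℝ := ((8 * w * i + 2 * ex U i : ℕ) : ℝ)

/-- First coordinates on the middle line. -/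
def zB (w : ℕ) (i : Fin (6 * w)) : ℝ := ((i : ℕ) : ℝ)

/-- First coordinates on the lower line. -/
def zC (V : Fin r → Fin w) (j : Fin r) : ℝ := ((2 * V j : ℕ) : ℝ) - ((8 * w * j : ℕ) : ℝ)

lemma zA_gap (hw : 0 < w) (U : Fin r → Fin w) {i j : Fin p} (h : i < j) :
    zA p U i + 6 * w ≤ zA p U j := by
  have h1 := ex_lt hw U i
  have h2 : 8 * w * (i + 1) ≤ 8 * w * j := Nat.mul_le_mul_left _ h
  have : 8 * w * i + 2 * ex U i + 6 * w ≤ 8 * w * j + 2 * ex U j := by nlinarith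
  unfold zA
  exact_mod_cast this

lemma zC_gap (V : Fin r → Fin w) {i j : Fin r} (h : i < j) : zC V j + 6 * w ≤ zC V i := by
  have h1 := (V j).is_lt
  have h2 : 8 * w * (i + 1) ≤ 8 * w * j := Nat.mul_le_mul_left _ h
  have : 2 * V j + 8 * w * i + 6 * w ≤ 2 * V i + 8 * w * j := by nlinarith
  have : ((2 * V j : ℕ) : ℝ) + ((8 * w * i : ℕ) : ℝ) + 6 * w ≤
      ((2 * V i : ℕ) : ℝ) + ((8 * w * j : ℕ) : ℝ) := by exact_mod_cast this
  unfold zC
  linarith

lemma zA_mono (hw : 0 < w) (U : Fin r → Fin w) : StrictMono (zA p U) := fun _ _ h =>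
  (lt_add_of_pos_right _ (by positivity)).trans_le (zA_gap hw U h)

lemma zB_mono : StrictMono (zB w) := fun _ _ h => Nat.cast_lt.2 h

lemma zC_anti (hw : 0 < w) (V : Fin r → Fin w) : StrictAnti (zC V) := fun _ _ h =>
  (lt_add_of_pos_right _ (by positivity)).trans_le (zC_gap V h)

lemma zig_inClass (hw : 0 < w) (U V : Fin r → Fin w) :
    InClass 6 (tri (zA p U) (zB w) (zC V)) := by
  apply inClass_six tri_levels
  intro a ha a' ha' c hc c' hc' b hb b' hb' a1 a2 c1 c2 b1 b2 x y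
  obtain ⟨i, rfl⟩ := tri_top ha a1
  obtain ⟨i', rfl⟩ := tri_top ha' a2
  obtain ⟨j, rfl⟩ := tri_bot hc c1
  obtain ⟨j', rfl⟩ := tri_bot hc' c2
  obtain ⟨k, rfl⟩ := tri_mid hb b1
  obtain ⟨k', rfl⟩ := tri_mid hb' b2
  have h1 := zA_gap hw U ((zA_mono hw U).lt_iff_lt.1 x)
  have h2 := zC_gap V ((zC_anti hw V).lt_iff_gt.1 y)
  have h3 : zB w k' ≤ 6 * w := by
    unfold zB
    exact_mod_cast k'.is_lt.le
  have h4 : 0 ≤ zB w k := Nat.cast_nonneg _
  dsimp only
  linarith

lemma zig_inj (hw : 0 < w) (hp : r < p) {U V U' V' : Fin r → Fin w}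
    (h : SameOrderType (tri (zA p U) (zB w) (zC V)) (tri (zA p U') (zB w) (zC V'))) :
    (U, V) = (U', V') := by
  have key := tri_rigid (zA_mono hw U) (zA_mono hw U') zB_mono zB_mono (zC_anti hw V)
    (zC_anti hw V') (by omega) hp h
  have h1 : ∀ j : Fin r, (ex U j : ℝ) + (V j : ℕ) = ex U' j + (V' j : ℕ) := fun j => by
    have u := ex_lt hw U j
    have v := (V j).is_lt
    have := key ⟨j, by omega⟩ j ⟨ex U j + V j, by omega⟩ (by
      simp only [zA, zB, zC]; push_cast; ring)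
    simp only [zA, zB, zC] at this
    push_cast at this
    linarith
  have h2 : ∀ j : Fin r, (ex U (j + 1) : ℝ) + (V j : ℕ) = ex U' (j + 1) + (V' j : ℕ) := fun j => by
    have u := ex_lt hw U (j + 1)
    have v := (V j).is_lt
    have := key ⟨j + 1, by omega⟩ j ⟨4 * w + ex U (j + 1) + V j, by omega⟩ (by
      simp only [zA, zB, zC]; push_cast; ring)
    simp only [zA, zB, zC] at this
    push_cast at this
    linarith
  have h3 : ∀ j ≤ r, (ex U j : ℝ) - ex U' j = ex U 0 - ex U' 0 := fun j hj => by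
    induction j with
    | zero => rfl
    | succ j ih => linarith [ih (by omega), h1 ⟨j, hj⟩, h2 ⟨j, hj⟩]
  have h4 : ∀ j : Fin r, (ex U j : ℝ) = ex U' j := fun j => by
    have := h3 r le_rfl
    rw [show ex U r = 0 by simp [ex], show ex U' r = 0 by simp [ex]] at this
    linarith [h3 j j.is_lt.le]
  refine Prod.ext (funext fun j => Fin.ext ?_) (funext fun j => Fin.ext ?_)
  · simpa [ex] using h4 j
  · exact_mod_cast (by linarith [h1 j, h4 j] : ((V j : ℕ) : ℝ) = (V' j : ℕ))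

lemma pow_le_numTypes {k n : ℕ} (hk : 6 ≤ k) (hw : 0 < w) (hn : 2 * r + 6 * w < n) :
    w ^ (2 * r) ≤ numTypes k n := by
  have := finite_types k n
  let g : (Fin r → Fin w) × (Fin r → Fin w) → Types k n := fun z =>
    Quot.mk _ ⟨tri (zA (n - r - 6 * w) z.1) (zB w) (zC z.2), by
      rw [card_tri (zA_mono hw _).injective zB_mono.injective (zC_anti hw _).injective]
      omega, fun P x y => (zig_inClass hw _ _ P x y).trans_le hk⟩
  have := Nat.card_le_card_of_injective g fun z z' h =>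
    zig_inj hw (by omega) ((types_equiv k n).eqvGen_iff.1 (Quot.eqvGen_exact h))
  change _ ≤ Nat.card (Types k n)
  simpa [two_mul, pow_add] using this

theorem le_numTypes_eventually {k : ℕ} (hk : 6 ≤ k) : ∀ᶠ n : ℕ in atTop,
    ((n : ℝ) / (Real.exp 14 * Real.log n)) ^ n ≤ numTypes k n := by
  filter_upwards [(Real.tendsto_log_atTop.comp tendsto_natCast_atTop_atTop).eventually_ge_atTop 12,
    eventually_ge_atTop 16] with n h1 h2
  replace h1 : 12 ≤ Real.log n := h1
  have h3 : (16 : ℝ) ≤ n := by exact_mod_cast h2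
  set w := ⌈(n : ℝ) / Real.log n⌉₊ with hw
  have w1 : (n : ℝ) / Real.log n ≤ w := Nat.le_ceil _
  have w2 : (w : ℝ) < n / Real.log n + 1 := Nat.ceil_lt_add_one (by positivity)
  have w3 : 0 < w := Nat.ceil_pos.2 (by positivity)
  have w4 : (w : ℝ) * Real.log n ≤ n + Real.log n := by
    have := mul_le_mul_of_nonneg_right w2.le (show 0 ≤ Real.log n by linarith)
    rwa [add_mul, div_mul_cancel₀ _ (by positivity), one_mul] at this
  have w5 : 6 * w < n := by
    have : (n : ℝ) / Real.log n ≤ n / 12 := by gcongr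
    have : 6 * (w : ℝ) < n := by linarith
    exact_mod_cast this
  have w6 : Real.log n ≤ n := (Real.log_le_sub_one_of_pos (by linarith)).trans (by linarith)
  have h4 : ((w : ℝ)) ^ (2 * ((n - 6 * w - 1) / 2)) ≤ numTypes k n := by
    exact_mod_cast pow_le_numTypes hk w3 (by omega)
  have w7 : (1 : ℝ) ≤ w := by exact_mod_cast w3
  have w8 : (w : ℝ) ≤ n := by exact_mod_cast (by omega : w ≤ n)
  have h5 : (w : ℝ) ^ (6 * w + 2) ≤ Real.exp 14 ^ n := by
    refine (pow_le_pow_left₀ (by linarith) w8 _).trans ?_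
    rw [← Real.exp_log (show 0 < (n : ℝ) by linarith), ← Real.exp_nat_mul, ← Real.exp_nat_mul,
      Real.exp_le_exp]
    push_cast
    linarith
  rw [mul_comm, ← div_div, div_pow, div_le_iff₀ (by positivity)]
  calc ((n : ℝ) / Real.log n) ^ n ≤ (w : ℝ) ^ n := by gcongr
    _ ≤ (w : ℝ) ^ (2 * ((n - 6 * w - 1) / 2) + (6 * w + 2)) := pow_le_pow_right₀ w7 (by omega)
    _ ≤ _ := by
      rw [pow_add]
      gcongr

end Pool.Agent.P.MP_708b53_co
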