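import Pool.Agent.Lib.SignPatterns.Warren

/-! A bound of Bezout type for generic fibres of polynomial maps. -/

namespace Pool.Agent.P.MP_708b53_co

open MvPolynomial Finset

lemma choose_mul_le (a k N : ℕ) (hk : 1 ≤ k) :
    (a * k + N).choose N ≤ k ^ N * (a + N).choose N := by
  have h : (a * k + 1).ascFactorial N ≤ k ^ N * (a + 1).ascFactorial N := by
    induction N with
    | zero => simp
    | succ N ih =>
      rw [Nat.ascFactorial_succ, Nat.ascFactorial_succ]
      calc _ ≤ (k * (a + 1 + N)) * (k ^ N * (a + 1).ascFactorial N) :=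
            Nat.mul_le_mul (by nlinarith) ih
        _ = _ := by ring
  rw [Nat.ascFactorial_eq_factorial_mul_choose, Nat.ascFactorial_eq_factorial_mul_choose,
    mul_left_comm] at h
  exact Nat.le_of_mul_le_mul_left h N.factorial_pos

variable {σ : Type} [Fintype σ] [DecidableEq σ]

lemma exists_simplex (t : ℕ) : ∃ A : Finset (σ →₀ ℕ),
    A.card = (t + Fintype.card σ).choose (Fintype.card σ) ∧ ∀ a, a ∈ A ↔ ∑ s, a s ≤ t := by
  refine ⟨((univ : Finset (Option σ)).finsuppAntidiag t).image Finsupp.some, ?_, fun a => ?_⟩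
  · rw [card_image_of_injOn, card_finsuppAntidiag_nat_eq_choose, card_univ, Fintype.card_option,
      show Fintype.card σ + 1 + t - 1 = t + Fintype.card σ by omega, Nat.choose_symm_add]
    intro e he e' he' h
    have h1 := (mem_finsuppAntidiag.1 he).1
    have h2 := (mem_finsuppAntidiag.1 he').1
    have h3 : ∀ s, e (some s) = e' (some s) := fun s => DFunLike.congr_fun h s
    rw [Fintype.sum_option] at h1 h2
    simp only [h3] at h1
    ext (_ | s)
    · omega
    · exact h3 s
  · rw [mem_image]
    constructor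
    · rintro ⟨e, he, rfl⟩
      have h1 := (mem_finsuppAntidiag.1 he).1
      rw [Fintype.sum_option] at h1
      simp only [Finsupp.some_apply]
      omega
    · intro h
      refine ⟨Finsupp.equivFunOnFinite.symm fun o => o.elim (t - ∑ s, a s) a,
        mem_finsuppAntidiag.2 ⟨?_, subset_univ _⟩, by ext s; simp⟩
      rw [Fintype.sum_option]
      simp only [Finsupp.equivFunOnFinite_symm_apply_apply, Option.elim]
      omega

lemma exists_fiber_poly {K : Type} [Field K] (F : σ → MvPolynomial σ K) (l : MvPolynomial σ K)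
    (D : ℕ) (hF : ∀ s, (F s).totalDegree ≤ D) (hl : l.totalDegree ≤ 1) :
    ∃ q : MvPolynomial σ K, q ≠ 0 ∧ ∀ (y : σ → K) (V : Finset K),
      (D + 1) ^ Fintype.card σ < V.card →
      (∀ v ∈ V, ∃ x : σ → K, (∀ s, eval x (F s) = y s) ∧ eval x l = v) → eval y q = 0 := by
  set J := (D + 1) ^ Fintype.card σ with hJ
  obtain ⟨A, a1, a2⟩ := exists_simplex (σ := σ) J
  obtain ⟨B, b1, b2⟩ := exists_simplex (σ := σ) (J * (D + 1))
  let t : A × Fin (J + 1) → MvPolynomial σ K := fun p => (∏ s, F s ^ p.1.1 s) * l ^ (p.2 : ℕ)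
  have ht : ∀ p, (t p).totalDegree ≤ J * (D + 1) := fun p => by
    refine (totalDegree_mul _ _).trans ?_
    have h1 : (∏ s, F s ^ p.1.1 s).totalDegree ≤ J * D :=
      (totalDegree_finsetProd _ _).trans ((sum_le_sum fun s _ => (totalDegree_pow _ _).trans
        (Nat.mul_le_mul_left _ (hF s))).trans
        (by rw [← sum_mul]; exact Nat.mul_le_mul_right _ ((a2 _).1 p.1.2)))
    have h2 : (l ^ (p.2 : ℕ)).totalDegree ≤ J * 1 :=
      (totalDegree_pow _ _).trans (Nat.mul_le_mul (Nat.lt_succ_iff.1 p.2.2) hl)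
    calc _ ≤ J * D + J * 1 := Nat.add_le_add h1 h2
      _ = _ := by ring
  let Θ : MvPolynomial σ K →ₗ[K] (B → K) := LinearMap.pi fun e => lcoeff K e.1
  have hlt : Module.finrank K (B → K) < Module.finrank K (A × Fin (J + 1) → K) := by
    simp only [Module.finrank_fintype_fun_eq_card, Fintype.card_prod, Fintype.card_coe,
      Fintype.card_fin, a1, b1]
    refine (choose_mul_le J (D + 1) _ (by omega)).trans_lt ?_
    rw [← hJ, mul_comm]
    exact Nat.mul_lt_mul_of_pos_left (by omega) (Nat.choose_pos (by omega))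
  obtain ⟨c, hc1, hc0⟩ := Submodule.exists_mem_ne_zero_of_ne_bot
    (LinearMap.ker_ne_bot_of_finrank_lt (f := Θ ∘ₗ Fintype.linearCombination K t) hlt)
  have hc : ∑ p, c p • t p = 0 := by
    have hdeg : (∑ p, c p • t p).totalDegree ≤ J * (D + 1) :=
      totalDegree_finsetSum_le fun p _ => (totalDegree_smul_le _ _).trans (ht p)
    ext m
    by_contra hm
    have := (le_totalDegree (mem_support_iff.2 hm)).trans hdeg
    rw [Finsupp.sum_fintype _ _ (by simp)] at this
    have h1 : Θ (Fintype.linearCombination K t c) = 0 := hc1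
    rw [Fintype.linearCombination_apply] at h1
    exact hm (congrFun h1 ⟨m, (b2 m).2 this⟩)
  obtain ⟨⟨a₀, j₀⟩, hp⟩ := Function.ne_iff.1 hc0
  let q : Fin (J + 1) → MvPolynomial σ K := fun j => ∑ a : A, monomial a.1 (c (a, j))
  have hq : ∀ j y, eval y (q j) = ∑ a : A, c (a, j) * ∏ s, y s ^ a.1 s := fun j y => by
    simp only [q, map_sum, eval_monomial]
    exact sum_congr rfl fun a _ => by rw [Finsupp.prod_fintype _ _ (by simp)]
  refine ⟨q j₀, fun h => ?_, fun y V hV hy => ?_⟩
  · have h1 := congrArg (coeff a₀.1) h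
    simp only [q, coeff_sum, coeff_monomial, Subtype.val_inj, sum_ite_eq', mem_univ, if_true,
      coeff_zero] at h1
    exact hp h1
  · let Q : Polynomial K := ∑ j : Fin (J + 1), Polynomial.monomial (j : ℕ) (eval y (q j))
    have hQd : Q.natDegree ≤ J := Polynomial.natDegree_sum_le_of_forall_le _ _ fun j _ =>
      (Polynomial.natDegree_monomial_le _).trans (Nat.lt_succ_iff.1 j.2)
    have hQ : Q = 0 := by
      apply Polynomial.eq_zero_of_natDegree_lt_card_of_eval_eq_zero' Q V _ (by omega)
      intro v hv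
      obtain ⟨x, hx, hxl⟩ := hy v hv
      have h1 := congrArg (eval x) hc
      simp only [t, map_sum, smul_eval, map_mul, map_prod, map_pow, hx, hxl, map_zero] at h1
      simp only [Q, Polynomial.eval_finsetSum, Polynomial.eval_monomial, hq]
      rw [← h1, Fintype.sum_prod_type, sum_comm]
      refine sum_congr rfl fun j _ => ?_
      rw [sum_mul]
      exact sum_congr rfl fun a _ => by ring
    have h2 := congrArg (fun P => Polynomial.coeff P (j₀ : ℕ)) hQ
    simpa only [Q, Polynomial.finsetSum_coeff, Polynomial.coeff_monomial, Fin.val_inj, sum_ite_eq',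
      mem_univ, if_true, Polynomial.coeff_zero] using h2

/-- The embedding of the reals into the field of rational functions. -/
noncomputable def toRat : ℝ →+* FractionRing (Polynomial ℝ) :=
  (algebraMap (Polynomial ℝ) _).comp Polynomial.C

lemma exists_fiber_real (F : σ → MvPolynomial σ ℝ) (D : ℕ) (hF : ∀ s, (F s).totalDegree ≤ D) :
    ∃ q : MvPolynomial σ (FractionRing (Polynomial ℝ)), q ≠ 0 ∧
      ∀ (y : σ → ℝ) (W : Finset (σ → ℝ)), (∀ x ∈ W, ∀ s, eval x (F s) = y s) →
        eval (toRat ∘ y) q ≠ 0 → W.card ≤ (D + 1) ^ Fintype.card σ := by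
  classical
  let e := Fintype.equivFin σ
  let l : MvPolynomial σ (FractionRing (Polynomial ℝ)) :=
    ∑ s, C (algebraMap (Polynomial ℝ) _ (Polynomial.X ^ (e s : ℕ))) * X s
  have hl : l.totalDegree ≤ 1 := totalDegree_finsetSum_le fun s _ =>
    (totalDegree_mul _ _).trans (by rw [totalDegree_C, totalDegree_X])
  obtain ⟨q, hq0, hq⟩ := exists_fiber_poly (fun s => map toRat (F s)) l D
    (fun s => le_trans (Finset.sup_mono (support_map_subset toRat (F s))) (hF s)) hl
  have hlinj : Function.Injective fun x : σ → ℝ => eval (toRat ∘ x) l := by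
    intro x x' hxx
    have key : ∀ z : σ → ℝ, eval (toRat ∘ z) l =
        algebraMap (Polynomial ℝ) _ (∑ s, Polynomial.monomial (e s : ℕ) (z s)) := fun z => by
      simp only [l, map_sum, map_mul, eval_C, eval_X, Function.comp, toRat, RingHom.comp_apply]
      exact sum_congr rfl fun s _ => by
        rw [← map_mul, mul_comm, Polynomial.C_mul_X_pow_eq_monomial]
    simp only [key] at hxx
    have h1 := IsFractionRing.injective (Polynomial ℝ) _ hxx
    funext s
    have h2 := congrArg (fun P => Polynomial.coeff P (e s : ℕ)) h1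
    simpa only [Polynomial.finsetSum_coeff, Polynomial.coeff_monomial, Fin.val_inj,
      e.injective.eq_iff, sum_ite_eq', mem_univ, if_true] using h2
  refine ⟨q, hq0, fun y W hW hy => not_lt.1 fun h => hy ?_⟩
  refine hq _ (W.image fun x => eval (toRat ∘ x) l) (by rwa [card_image_of_injective _ hlinj])
    fun v hv => ?_
  obtain ⟨x, hx, rfl⟩ := mem_image.1 hv
  refine ⟨toRat ∘ x, fun s => ?_, rfl⟩
  rw [Function.comp_apply, ← hW x hx s, eval_map]
  exact (eval₂_comp_left toRat (RingHom.id ℝ) x (F s)).symm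

end Pool.Agent.P.MP_708b53_co
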