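import Pool.Agent.P.MP_708b53_co.SW1

/-! A sharp bound of Warren type, by counting the solutions of max-min problems. -/

namespace Pool.Agent.P.MP_708b53_co

open MvPolynomial Finset Filter Topology

variable {σ ι : Type} [Fintype σ] [DecidableEq σ]

lemma hasDerivAt_line (p : MvPolynomial σ ℝ) (x v : σ → ℝ) :
    HasDerivAt (fun r : ℝ => eval (x + r • v) p) (∑ s, eval x (pderiv s p) * v s) 0 := by
  induction p using MvPolynomial.induction_on with
  | C a => simpa using hasDerivAt_const (0 : ℝ) a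
  | add p q hp hq => simpa only [map_add, add_mul, sum_add_distrib] using hp.fun_add hq
  | mul_X p i hp =>
    have hX : HasDerivAt (fun r : ℝ => x i + r * v i) (v i) 0 := by
      simpa using ((hasDerivAt_id (0 : ℝ)).mul_const (v i)).const_add (x i)
    have e1 : (fun r : ℝ => eval (x + r • v) (p * X i)) =
        fun r : ℝ => eval (x + r • v) p * (x i + r * v i) := by
      funext r
      simp
    rw [e1]
    refine (hp.fun_mul hX).congr_deriv ?_
    simp only [pderiv_mul, map_add, map_mul, eval_X, add_mul, sum_add_distrib, zero_smul,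
      add_zero, zero_mul, sum_mul, pderiv_X, mul_assoc, ← mul_sum]
    congr 1
    · exact sum_congr rfl fun s _ => by ring
    · simp [Pi.single_apply, apply_ite]

lemma kkt (ψ : ι → MvPolynomial σ ℝ) (A : Finset ι) (x : σ → ℝ) (t : ℝ)
    (ht : ∀ i ∈ A, t ≤ eval x (ψ i)) (hmax : ∀ᶠ z in 𝓝 x, ∃ i ∈ A, eval z (ψ i) ≤ t) :
    ∃ S : Finset ι, S.card ≤ Fintype.card σ + 1 ∧ (∀ i ∈ S, eval x (ψ i) = t) ∧ ∃ w : ι → ℝ,
      ∑ i ∈ S, w i = 1 ∧ ∀ s, ∑ i ∈ S, w i * eval x (pderiv s (ψ i)) = 0 := by
  classical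
  let G : ι → σ → ℝ := fun i s => eval x (pderiv s (ψ i))
  have h0 : (0 : σ → ℝ) ∈ convexHull ℝ (G '' {i | i ∈ A ∧ eval x (ψ i) = t}) := by
    by_contra h
    obtain ⟨f, u, f1, f2⟩ := geometric_hahn_banach_point_closed (convex_convexHull _ _)
      (((A.finite_toSet.subset (fun _ q => q.1 : {i | i ∈ A ∧ eval x (ψ i) = t} ⊆ _)).image
        G).isClosed_convexHull ℝ) h
    let v : σ → ℝ := fun s => f fun j => if s = j then 1 else 0
    have h1 : ∀ᶠ r in 𝓝[>] (0 : ℝ), ∀ i ∈ A, t < eval (x + r • v) (ψ i) := by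
      refine (eventually_all_finset A).2 fun i hi => ?_
      have hd := hasDerivAt_line (ψ i) x v
      rcases (ht i hi).eq_or_lt with q | q
      · have : 0 < ∑ s, G i s * v s := by
          have := f2 _ (subset_convexHull _ _ ⟨i, ⟨hi, q.symm⟩, rfl⟩)
          rw [map_zero] at f1
          rw [← ContinuousLinearMap.coe_coe, LinearMap.pi_apply_eq_sum_univ] at this
          exact f1.trans this
        filter_upwards [hd.tendsto_slope_zero_right.eventually (lt_mem_nhds this),
          self_mem_nhdsWithin] with r r1 r2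
        simp only [zero_add, zero_smul, add_zero, smul_eq_mul] at r1
        linarith [pos_of_mul_pos_right r1 (inv_nonneg.2 (le_of_lt r2))]
      · exact nhdsWithin_le_nhds (hd.continuousAt.eventually (lt_mem_nhds (by simpa using q)))
    have h2 : Tendsto (fun r : ℝ => x + r • v) (𝓝[>] 0) (𝓝 x) :=
      tendsto_nhdsWithin_of_tendsto_nhds (Continuous.tendsto' (by fun_prop) _ _ (by simp))
    obtain ⟨r, r1, i, r2, r3⟩ := (h1.and (h2.eventually hmax)).exists
    exact (r1 i r2).not_ge r3
  obtain ⟨κ, _, z, w, z1, z2, -, z3, z4⟩ := eq_pos_convex_span_of_mem_convexHull h0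
  choose j j1 j2 using fun k => z1 ⟨k, rfl⟩
  have j3 : Function.Injective j := fun k l q => z2.injective (by rw [← j2, q, j2])
  refine ⟨univ.image j, card_image_le.trans ?_, ?_, Function.extend j w 0, ?_, fun s => ?_⟩
  · simpa using z2.card_le_finrank_succ.trans (Nat.succ_le_succ (Submodule.finrank_le _))
  · simpa using fun k => (j1 k).2
  · simpa only [sum_image j3.injOn, j3.extend_apply] using z3
  · simpa only [sum_image j3.injOn, j3.extend_apply, ← j2, Finset.sum_apply, Pi.smul_apply,
      smul_eq_mul, G, Pi.zero_apply] using congrFun z4 s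

lemma exists_tight (H : ι → MvPolynomial σ ℝ) (A : Finset ι) (hA : A.Nonempty) (x₀ : σ → ℝ)
    (h0 : ∀ i ∈ A, 0 < eval x₀ (H i)) (R : ℝ)
    (hR : ∀ z, (∀ i ∈ A, 0 ≤ eval z (H i)) → ∀ s, |z s| ≤ R) :
    ∃ δ > 0, ∀ (a : ι → ℝ) (y : σ → ℝ) (c : ℝ), (∀ i, |a i| < δ) → (∀ s, |y s| < δ) → 1 < c →
      ∃ (x : σ → ℝ) (S : Finset ι) (w : ι → ℝ) (t : ℝ), (∀ i ∈ A, 0 < eval x (H i)) ∧
        S.card ≤ Fintype.card σ + 1 ∧ (∀ i ∈ S, eval x (H i) - t = a i) ∧ ∑ i ∈ S, w i = c ∧
        ∀ s, ∑ i ∈ S, w i * eval x (pderiv s (H i)) = y s := by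
  obtain ⟨i₀, i1, i2⟩ := A.exists_min_image (fun i => eval x₀ (H i)) hA
  have hm := h0 i₀ i1
  set m := eval x₀ (H i₀)
  set N : ℝ := Fintype.card σ * |R| + 1 with hN
  have hN0 : 0 < N := by positivity
  refine ⟨m / (4 * N), by positivity, fun a y c ha hy hc => ?_⟩
  set δ := m / (4 * N) with hδ
  have hδ0 : 0 < δ := by positivity
  have hδN : δ * N = m / 4 := by rw [hδ]; field_simp
  let K : Set (σ → ℝ) := {z | ∀ i ∈ A, 0 ≤ eval z (H i)}
  have hK : IsCompact K := by
    refine (isCompact_univ_pi fun _ : σ => isCompact_Icc (a := -R) (b := R)).of_isClosed_subset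
      ?_ fun z hz s _ => abs_le.1 (hR z hz s)
    simp only [K, Set.ofPred_forall]
    exact isClosed_iInter fun i => isClosed_iInter fun _ =>
      isClosed_le continuous_const (H i).continuous_eval
  let ψ : ι → MvPolynomial σ ℝ := fun i => C c * (H i - C (a i)) - ∑ s, C (y s) * X s
  have hψ : ∀ z i, eval z (ψ i) = c * (eval z (H i) - a i) - ∑ s, y s * z s := fun z i => by
    simp [ψ]
  have hlin : ∀ z ∈ K, |∑ s, y s * z s| ≤ δ * (N - 1) := fun z hz =>
    (abs_sum_le_sum_abs _ _).trans ((sum_le_card_nsmul _ _ (δ * |R|) fun s _ => by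
      rw [abs_mul]
      exact mul_le_mul (hy s).le ((hR z hz s).trans (le_abs_self _)) (abs_nonneg _) hδ0.le).trans_eq
        (by rw [hN, nsmul_eq_mul, card_univ]; ring))
  have hx₀ : x₀ ∈ K := fun i hi => (h0 i hi).le
  obtain ⟨x, hx, hmax⟩ := hK.exists_isMaxOn ⟨x₀, hx₀⟩ (Continuous.finset_inf'_apply hA
    (f := fun i z => eval z (ψ i)) fun i _ => (ψ i).continuous_eval).continuousOn
  have hpos : ∀ i ∈ A, 0 < eval x (H i) := fun i hi => by
    obtain ⟨k, k1, k2⟩ := exists_mem_eq_inf' hA fun i => eval x₀ (ψ i)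
    have h1 : eval x₀ (ψ k) ≤ eval x (ψ i) := k2.ge.trans ((hmax hx₀).trans (inf'_le _ hi))
    rw [hψ, hψ] at h1
    have h2 := abs_le.1 (hlin x hx)
    have h3 := abs_le.1 (hlin x₀ hx₀)
    have h4 := abs_lt.1 (ha i)
    have h5 := abs_lt.1 (ha k)
    have hN1 : 1 ≤ N := le_add_of_nonneg_left (by positivity)
    have h6 : δ ≤ m / 4 := by nlinarith
    have h7 := i2 k k1
    by_contra q
    nlinarith [mul_le_mul_of_nonneg_right hc.le
      (show 0 ≤ eval x₀ (H k) - a k - (eval x (H i) - a i) by linarith)]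
  obtain ⟨S, s1, s2, w, s3, s4⟩ := kkt ψ A x _ (fun i hi => inf'_le (fun i => eval x (ψ i)) hi) (by
    have : ∀ᶠ z in 𝓝 x, ∀ i ∈ A, 0 < eval z (H i) := (eventually_all_finset A).2 fun i hi =>
      (H i).continuous_eval.continuousAt.eventually (lt_mem_nhds (hpos i hi))
    filter_upwards [this] with z hz
    obtain ⟨k, k1, k2⟩ := exists_mem_eq_inf' hA fun i => eval z (ψ i)
    exact ⟨k, k1, k2.ge.trans (hmax fun i hi => (hz i hi).le)⟩)
  refine ⟨x, S, fun i => w i * c, (A.inf' hA (fun i => eval x (ψ i)) + ∑ s, y s * x s) / c, hpos, s1,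
    fun i hi => ?_, by rw [← sum_mul, s3, one_mul], fun s => ?_⟩
  · have s5 : eval x (ψ i) = A.inf' hA fun i => eval x (ψ i) := s2 i hi
    rw [← s5, hψ]
    field_simp
    ring
  · have := s4 s
    simp only [ψ, map_sub, pderiv_C_mul, pderiv_C, map_sum, pderiv_X, map_mul, eval_C, sub_zero,
      Pi.single_apply, apply_ite, mul_one, mul_zero, mul_sub, sum_sub_distrib,
      ← sum_mul, s3, one_mul, sum_ite_eq', mem_univ, if_true, ← mul_assoc] at this
    linarith

lemma card_small (ι : Type) [Fintype ι] [DecidableEq ι] (r : ℕ) :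
    (univ.filter fun S : Finset ι => S.card ≤ r).card ≤ (Fintype.card ι + r).choose r := by
  rw [Nat.add_choose_eq, Nat.sum_antidiagonal_eq_sum_range_succ_mk]
  refine (card_le_card (t := (range (r + 1)).biUnion fun j => powersetCard j univ)
    fun S q => ?_).trans (card_biUnion_le.trans (sum_le_sum fun j _ => ?_))
  · simpa [Nat.lt_succ_iff] using q
  · rw [card_powersetCard, card_univ]
    exact Nat.le_mul_of_pos_right _ (Nat.choose_pos (Nat.sub_le _ _))

theorem card_cells_le [Fintype ι] (H : ι → MvPolynomial σ ℝ) (d : ℕ)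
    (hd : ∀ i, (H i).totalDegree ≤ d) {κ : Type} [Fintype κ] (A : κ → Finset ι)
    (hA : ∀ k, (A k).Nonempty) (h0 : ∀ k, ∃ x, ∀ i ∈ A k, 0 < eval x (H i)) (R : ℝ)
    (hR : ∀ k z, (∀ i ∈ A k, 0 ≤ eval z (H i)) → ∀ s, |z s| ≤ R)
    (hsep : ∀ k l z, (∀ i ∈ A k, 0 < eval z (H i)) → (∀ i ∈ A l, 0 < eval z (H i)) → k = l) :
    Fintype.card κ ≤ (d + 2) ^ (2 * Fintype.card σ + 2) *
      (Fintype.card ι + (Fintype.card σ + 1)).choose (Fintype.card σ + 1) := by
  classical
  choose δ hδ h using fun k => (h0 k).elim fun x q => exists_tight H (A k) (hA k) x q R (hR k)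
  obtain ⟨ε, hε, hεδ⟩ : ∃ ε > 0, ∀ k, ε ≤ δ k := by
    rcases isEmpty_or_nonempty κ with h | h
    · exact ⟨1, one_pos, fun x => h.elim x⟩
    · obtain ⟨x, hx⟩ := Finite.exists_min δ
      exact ⟨δ x, hδ x, hx⟩
  let F : (S : Finset ι) → Option (σ ⊕ S) → MvPolynomial (Option (σ ⊕ S)) ℝ := fun S o =>
    o.elim (∑ i : S, X (some (.inr i))) (Sum.elim
      (fun s => ∑ i : S, X (some (.inr i)) * rename (some ∘ .inl) (pderiv s (H i)))
      fun i => rename (some ∘ .inl) (H i) - X none)
  have hF : ∀ S o, (F S o).totalDegree ≤ d + 1 := by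
    rintro S (_ | s | i)
    · exact totalDegree_finsetSum_le fun i _ => by simp
    · refine totalDegree_finsetSum_le fun i _ => (totalDegree_mul _ _).trans ?_
      have := (totalDegree_rename_le (some ∘ (.inl : σ → σ ⊕ S)) (pderiv s (H i))).trans
        ((Pool.Agent.Lib.SignPatterns.totalDegree_pderiv_le _ _).trans (hd i))
      rw [totalDegree_X]
      omega
    · exact (totalDegree_sub _ _).trans (max_le ((totalDegree_rename_le _ _).trans
        ((hd i).trans (Nat.le_succ _))) (by simp))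
  choose q q1 q2 using fun S => exists_fiber_real (F S) (d + 1) (hF S)
  let e : (S : Finset ι) → Option (σ ⊕ S) → Option (σ ⊕ ι) := fun S =>
    Option.map (Sum.map id Subtype.val)
  have q3 : ∏ S, rename (e S) (q S) ≠ 0 := prod_ne_zero_iff.2 fun S _ =>
    (map_ne_zero_iff _ (rename_injective _ (Option.map_injective
      (Function.injective_id.sumMap Subtype.val_injective)))).2 (q1 S)
  obtain ⟨p, p1, p2⟩ : ∃ p : Option (σ ⊕ ι) → ℝ, (1 < p none ∧ ∀ o, |p (some o)| < ε) ∧
      eval (toRat ∘ p) (∏ S, rename (e S) (q S)) ≠ 0 := by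
    by_contra! hp
    refine q3 (funext_set (fun o => toRat '' o.elim (Set.Ioi 1) fun _ => Set.Ioo (-ε) ε)
      (fun o => Set.Infinite.image toRat.injective.injOn ?_) fun y hy => ?_)
    · obtain _ | o := o
      · exact Set.Ioi_infinite _
      · exact Set.Ioo_infinite (by linarith)
    · choose z z1 z2 using fun o => hy o (Set.mem_univ o)
      rw [map_zero, ← (funext z2 : toRat ∘ z = y)]
      exact hp z ⟨z1 none, fun o => abs_lt.2 (z1 (some o))⟩
  choose x S w t s0 s1 s2 s3 s4 using fun k => h k (fun i => p (some (.inr i)))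
    (fun s => p (some (.inl s))) (p none) (fun i => (p1.2 _).trans_le (hεδ k))
    (fun s => (p1.2 _).trans_le (hεδ k)) p1.1
  refine (card_le_mul_card_image_of_maps_to (s := univ) (f := S)
    (t := univ.filter fun S => S.card ≤ Fintype.card σ + 1) (fun k _ => by simpa using s1 k) _
    fun T hT => ?_).trans (Nat.mul_le_mul_left _ (card_small ι _))
  let g : κ → Option (σ ⊕ T) → ℝ := fun k o => o.elim (t k) (Sum.elim (x k) fun i => w k i)
  have g1 : Function.Injective g := fun k l r => hsep k l (x k) (s0 k)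
    ((funext fun s => congrFun r (some (.inl s)) : x k = x l) ▸ s0 l)
  rw [← card_image_of_injective _ g1]
  refine (q2 T (p ∘ e T) _ (fun z hz o => ?_) fun r => p2 ?_).trans
    (Nat.pow_le_pow_right (by omega) ?_)
  · obtain ⟨k, hk, rfl⟩ := mem_image.1 hz
    obtain rfl := (mem_filter.1 hk).2
    have : g k ∘ some ∘ .inl = x k := rfl
    obtain _ | s | i := o
    · simpa [F, g, e, sum_attach (S k) (w k)] using s3 k
    · simpa [F, eval_rename, this, g, e,
        sum_attach (S k) fun i => w k i * eval (x k) (pderiv s (H i))] using s4 k s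
    · simpa [F, eval_rename, this, g, e] using s2 k i i.2
  · rw [map_prod]
    exact prod_eq_zero (mem_univ T) (by rw [eval_rename]; exact r)
  · have := (mem_filter.1 hT).2
    simp only [Fintype.card_option, Fintype.card_sum, Fintype.card_coe]
    omega

/-- The number of sign patterns of polynomials of bounded degree. -/
theorem card_signs_le [Fintype ι] (f : ι → MvPolynomial σ ℝ) (d : ℕ) (h2 : 2 ≤ d)
    (hd : ∀ i, (f i).totalDegree ≤ d) {κ : Type} [Fintype κ] (x : κ → σ → ℝ)
    (hsep : ∀ k l, (∀ i, SignType.sign (eval (x k) (f i)) = SignType.sign (eval (x l) (f i))) →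
      k = l) :
    Fintype.card κ ≤ (d + 2) ^ (2 * Fintype.card σ + 2) *
      (4 * Fintype.card ι + Fintype.card σ + 2).choose (Fintype.card σ + 1) := by
  classical
  obtain ⟨ε, hε, hεf⟩ : ∃ ε > 0, ∀ k i, eval (x k) (f i) ≠ 0 → ε < |eval (x k) (f i)| := by
    have : ∀ᶠ ε in 𝓝[>] (0 : ℝ), ∀ k i, eval (x k) (f i) ≠ 0 → ε < |eval (x k) (f i)| := by
      simp only [eventually_all]
      exact fun k i q => nhdsWithin_le_nhds (gt_mem_nhds (abs_pos.2 q))
    exact (eventually_mem_nhdsWithin.and this).exists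
  obtain ⟨R, hR⟩ := Finite.exists_le fun k => ∑ s, x k s ^ 2
  let H : Option (ι × Bool × Bool) → MvPolynomial σ ℝ := fun o =>
    o.elim (C (R + 1) - ∑ s, X s ^ 2) fun i =>
      C (if i.2.1 then 1 else -1) * f i.1 + C (if i.2.2 then ε else -ε)
  have := card_cells_le H d ?_ (fun k => univ.filter fun o => 0 < eval (x k) (H o))
    (fun k => ⟨none, by simp [H]; linarith [hR k]⟩) (fun k => ⟨x k, by simp⟩) (R + 2)
    (fun k z hz s => ?_) fun k l z q r => hsep k l fun i => ?_
  · simp only [Fintype.card_option, Fintype.card_prod, Fintype.card_bool] at this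
    convert this using 3
    ring
  · rintro (_ | i)
    · exact (totalDegree_sub _ _).trans (max_le ((totalDegree_C _).trans_le (Nat.zero_le _))
        (totalDegree_finsetSum_le fun s _ => by simpa using h2))
    · exact (totalDegree_add _ _).trans (max_le ((totalDegree_mul _ _).trans
        (by simpa using hd i.1)) (by simp))
  · have h1 := hz none (by simp [H]; linarith [hR k])
    simp only [H, Option.elim, map_sub, eval_C, map_sum, map_pow, eval_X] at h1
    have := single_le_sum (f := fun s => z s ^ 2) (fun s _ => sq_nonneg _) (mem_univ s)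
    rw [abs_le]
    constructor <;> nlinarith
  · have key : ∀ k, (∀ o ∈ univ.filter fun o => 0 < eval (x k) (H o), 0 < eval z (H o)) →
        (eval (x k) (f i) < 0 ∧ eval z (f i) < -ε) ∨
        (eval (x k) (f i) = 0 ∧ -ε < eval z (f i) ∧ eval z (f i) < ε) ∨
        (0 < eval (x k) (f i) ∧ ε < eval z (f i)) := fun k q => by
      have a := fun u v => q (some (i, u, v))
      simp only [H, Option.elim, map_add, map_mul, eval_C, mem_filter, mem_univ, true_and] at a
      have a1 := a true true
      have a2 := a true false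
      have a3 := a false true
      have a4 := a false false
      simp only [if_true, Bool.false_eq_true, if_false] at a1 a2 a3 a4
      rcases lt_trichotomy (eval (x k) (f i)) 0 with u | u | u
      · have := hεf k i u.ne
        rw [abs_of_neg u] at this
        exact .inl ⟨u, by linarith [a4 (by linarith)]⟩
      · exact .inr (.inl ⟨u, by linarith [a1 (by linarith)], by linarith [a3 (by linarith)]⟩)
      · have := hεf k i u.ne'
        rw [abs_of_pos u] at this
        exact .inr (.inr ⟨u, by linarith [a2 (by linarith)]⟩)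
    rcases key k q with a | a | a <;> rcases key l r with b | b | b
    · rw [sign_neg a.1, sign_neg b.1]
    · linarith [a.2, b.2.1]
    · linarith [a.2, b.2]
    · linarith [a.2.1, b.2]
    · rw [a.1, b.1]
    · linarith [a.2.2, b.2]
    · linarith [a.2, b.2]
    · linarith [a.2, b.2.2]
    · rw [sign_pos a.1, sign_pos b.1]

end Pool.Agent.P.MP_708b53_co
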