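import Pool.Agent.P.MP_708b53_co.Upper
import Pool.Agent.P.MP_708b53_co.Lower

/-! `log c_k(n)` is asymptotic to `n log n` for every `k ≥ 6`. -/

namespace Pool.Agent.P.MP_708b53_co

open Filter Topology

theorem sharp_bounds {k : ℕ} (hk : 6 ≤ k) : ∃ C : ℝ, 0 < C ∧ ∀ᶠ n : ℕ in atTop,
    ((n : ℝ) / (C * Real.log n)) ^ n ≤ numTypes k n ∧ (numTypes k n : ℝ) ≤ (C * n) ^ n := by
  obtain ⟨C, hC⟩ := numTypes_le_pow k
  refine ⟨Real.exp 14 + C, by positivity, ?_⟩
  filter_upwards [le_numTypes_eventually hk, eventually_ge_atTop 2] with n h1 h2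
  have h3 : 0 < Real.log n := Real.log_pos (by exact_mod_cast h2)
  constructor
  · refine le_trans ?_ h1
    gcongr
    exact le_add_of_nonneg_right C.cast_nonneg
  · refine le_trans (b := ((C : ℝ) * n) ^ n) (by exact_mod_cast hC n (by omega)) ?_
    gcongr
    exact le_add_of_nonneg_left (Real.exp_pos _).le

theorem sharp_limit {k : ℕ} (hk : 6 ≤ k) :
    Tendsto (fun n : ℕ => Real.log (numTypes k n) / (n * Real.log n)) atTop (𝓝 1) := by
  obtain ⟨C, hC, h⟩ := sharp_bounds hk
  have l1 : Tendsto (fun n : ℕ => Real.log n) atTop atTop :=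
    Real.tendsto_log_atTop.comp tendsto_natCast_atTop_atTop
  have l2 : Tendsto (fun n : ℕ => Real.log C / Real.log n) atTop (𝓝 0) :=
    tendsto_const_nhds.div_atTop l1
  have l3 : Tendsto (fun n : ℕ => Real.log (Real.log n) / Real.log n) atTop (𝓝 0) :=
    Real.isLittleO_log_id_atTop.tendsto_div_nhds_zero.comp l1
  refine tendsto_of_tendsto_of_tendsto_of_le_of_le'
    (g := fun n : ℕ => 1 - Real.log C / Real.log n - Real.log (Real.log n) / Real.log n)
    (h := fun n : ℕ => 1 + Real.log C / Real.log n)
    (by simpa using (l2.const_sub 1).sub l3) (by simpa using l2.const_add 1) ?_ ?_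
  · filter_upwards [h, eventually_ge_atTop 2] with n h1 h2
    have h3 : 0 < Real.log n := Real.log_pos (by exact_mod_cast h2)
    have h4 : (0 : ℝ) < n := by positivity
    have := Real.log_le_log (by positivity) h1.1
    rw [Real.log_pow, Real.log_div h4.ne' (by positivity), Real.log_mul hC.ne' h3.ne'] at this
    rw [le_div_iff₀ (by positivity)]
    refine le_trans (le_of_eq ?_) this
    field_simp
    ring
  · filter_upwards [h, eventually_ge_atTop 2] with n h1 h2
    have h3 : 0 < Real.log n := Real.log_pos (by exact_mod_cast h2)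
    have h4 : (0 : ℝ) < n := by positivity
    have := Real.log_le_log (lt_of_lt_of_le (by positivity) h1.1) h1.2
    rw [Real.log_pow, Real.log_mul hC.ne' h4.ne'] at this
    rw [div_le_iff₀ (by positivity)]
    refine this.trans (le_of_eq ?_)
    field_simp
    ring

end Pool.Agent.P.MP_708b53_co
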