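import Pool.Agent.P.MP_708b53_co.Growth
import Pool.Agent.P.MP_708b53_co.SW2
import Pool.Agent.P.MP_708b53_co.Cover

/-! The upper bound `c_k(n) ≤ (C n)^n`. -/

namespace Pool.Agent.P.MP_708b53_co

open Finset MvPolynomial

lemma perm_eq {n : ℕ} {t : Fin n → ℝ} (ht : Function.Injective t) {π τ : Equiv.Perm (Fin n)}
    (h : ∀ i j, t (π i) < t (π j) → t (τ i) < t (τ j)) : π = τ := by
  let s := Tuple.sort t
  have hu : StrictMono (t ∘ s) := (Tuple.monotone_sort t).strictMono_of_injective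
    (ht.comp s.injective)
  have hf : StrictMono fun i => s.symm (τ (π.symm (s i))) := fun i j hij =>
    hu.lt_iff_lt.1 (by simpa using h (π.symm (s i)) (π.symm (s j)) (by simpa using hu hij))
  ext i
  have := hf.apply_eq (x := s.symm (π i))
  simp only [Equiv.apply_symm_apply, Equiv.symm_apply_apply, s.symm.injective.eq_iff] at this
  rw [this]

lemma sameOrderType_of_param {ι : Type} [Nonempty ι] {S T : Finset (ℝ × ℝ)} {e f : ι → ℝ × ℝ}
    (he : Set.BijOn e Set.univ S) (hf : Set.BijOn f Set.univ T)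
    (h : ∀ i j m, orient (e i) (e j) (e m) = orient (f i) (f j) (f m)) : SameOrderType S T := by
  have hinv := he.invOn_invFunOn
  refine ⟨f ∘ Function.invFunOn e Set.univ, hf.comp (Set.BijOn.symm hinv.symm he),
    fun p hp q hq r hr => ?_⟩
  simp only [Function.comp, ← h, hinv.2 hp, hinv.2 hq, hinv.2 hr]

/-- The second coordinate of a point on one of the lines. -/
noncomputable def yPoly {ι J : Type} (γ : ι → J) (i : ι) : MvPolynomial (ι ⊕ J ⊕ J) ℝ :=
  X (.inr (.inl (γ i))) * X (.inl i) + X (.inr (.inr (γ i)))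

/-- Orientation polynomials and order polynomials. -/
noncomputable def sPoly {ι J : Type} (γ : ι → J) :
    (ι × ι × ι) ⊕ (ι × ι) → MvPolynomial (ι ⊕ J ⊕ J) ℝ :=
  Sum.elim (fun t => (X (.inl t.2.1) - X (.inl t.1)) * (yPoly γ t.2.2 - yPoly γ t.1) -
    (X (.inl t.2.2) - X (.inl t.1)) * (yPoly γ t.2.1 - yPoly γ t.1))
    fun t => X (.inl t.2) - X (.inl t.1)

lemma sPoly_deg {ι J : Type} (γ : ι → J) (o : (ι × ι × ι) ⊕ (ι × ι)) :
    (sPoly γ o).totalDegree ≤ 3 := by
  have h1 : ∀ a b : ι ⊕ J ⊕ J, (X a - X b : MvPolynomial (ι ⊕ J ⊕ J) ℝ).totalDegree ≤ 1 :=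
    fun a b => (totalDegree_sub _ _).trans (max_le (by simp) (by simp))
  have h2 : ∀ i, (yPoly γ i).totalDegree ≤ 2 := fun i =>
    (totalDegree_add _ _).trans (max_le ((totalDegree_mul _ _).trans (by simp)) (by simp))
  have h3 : ∀ (a b : ι ⊕ J ⊕ J) i j,
      ((X a - X b) * (yPoly γ i - yPoly γ j)).totalDegree ≤ 3 := fun a b i j =>
    (totalDegree_mul _ _).trans (Nat.add_le_add (h1 a b)
      ((totalDegree_sub _ _).trans (max_le (h2 i) (h2 j))))
  obtain t | t := o
  · exact (totalDegree_sub _ _).trans (max_le (h3 _ _ _ _) (h3 _ _ _ _))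
  · exact (h1 _ _).trans (by norm_num)

lemma numTypes_mul_factorial_le (k n : ℕ) (hn : 1 ≤ n) :
    numTypes k n * n.factorial ≤ 5 ^ (2 * (n + 2 * Fintype.card (Lines k)) + 2) *
      (4 * (n ^ 3 + n ^ 2) + (n + 2 * Fintype.card (Lines k)) + 2).choose
        (n + 2 * Fintype.card (Lines k) + 1) * Fintype.card (Lines k) ^ n := by
  classical
  have := finite_types k n
  have := Fintype.ofFinite (Types k n)
  have : Nonempty (Fin n) := ⟨⟨0, hn⟩⟩
  have hen : ∀ q : Types k n,
      ∃ e : Fin n → ℝ × ℝ, Set.BijOn e Set.univ (q.out.1 : Set (ℝ × ℝ)) := by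
    intro q
    let e := (Finset.equivFinOfCardEq q.out.2.1).symm
    exact ⟨fun i => (e i).1, fun i _ => (e i).2, fun i _ j _ h => e.injective (Subtype.ext h),
      fun p hp => ⟨e.symm ⟨p, hp⟩, Set.mem_univ _, by simp⟩⟩
  choose e he using hen
  choose l α β h1 h2 using fun q : Types k n => exists_cover q.out.2.2
  choose g hg using fun q i => h2 q (e q i) ((he q).mapsTo (Set.mem_univ i))
  have h3 := card_le_mul_card_image_of_maps_to (s := univ)
    (f := fun z : Types k n × Equiv.Perm (Fin n) => g z.1 ∘ z.2) (t := univ)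
    (fun _ _ => mem_univ _) _ fun γ _ => (Fintype.card_subtype _).symm.trans_le
      (card_signs_le (sPoly γ) 3 (by norm_num) (sPoly_deg γ)
        (fun z => Sum.elim (fun i => sh (l z.1.1) (e z.1.1 (z.1.2 i)))
          (Sum.elim (α z.1.1) (β z.1.1))) ?_)
  · simp only [card_univ, Fintype.card_prod, Fintype.card_perm, Fintype.card_fin,
      Fintype.card_sum, Fintype.card_fun] at h3
    rw [show numTypes k n = Fintype.card (Types k n) from Nat.card_eq_fintype_card]
    simp only [Fintype.card_prod]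
    convert h3 using 4 <;> ring
  have hy : ∀ q (π : Equiv.Perm (Fin n)) i, eval (Sum.elim (fun i => sh (l q) (e q (π i)))
      (Sum.elim (α q) (β q))) (yPoly (g q ∘ π) i) = (e q (π i)).2 := fun q π i => by
    rw [hg q (π i)]
    simp [yPoly]
  have ho : ∀ q (π : Equiv.Perm (Fin n)) i j m, SignType.sign (eval (Sum.elim
      (fun i => sh (l q) (e q (π i))) (Sum.elim (α q) (β q))) (sPoly (g q ∘ π) (.inl (i, j, m)))) =
      orient (e q (π i)) (e q (π j)) (e q (π m)) := fun q π i j m => by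
    simp only [sPoly, Sum.elim_inl, map_sub, map_mul, eval_X, hy]
    simp only [orient, sh]
    congr 1
    ring
  rintro ⟨⟨q, π⟩, rfl⟩ ⟨⟨q', τ⟩, r⟩ h
  dsimp only at h r
  obtain rfl : q = q' := by
    rw [← Quot.out_eq q, ← Quot.out_eq q']
    refine Quot.sound (sameOrderType_of_param
      ((he q).comp (Set.bijOn_univ.2 π.bijective)) ((he q').comp (Set.bijOn_univ.2 τ.bijective))
      fun i j m => ?_)
    have := h (.inl (i, j, m))
    rwa [ho, ← r, ho] at this
  obtain rfl : π = τ := by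
    refine perm_eq (t := fun i => sh (l q) (e q i)) (fun i j x => (he q).injOn trivial trivial
      (h1 q ((he q).mapsTo trivial) ((he q).mapsTo trivial) x)) fun i j x => ?_
    have := h (.inr (i, j))
    simp only [sPoly, Sum.elim_inr, Sum.elim_inl, map_sub, eval_X] at this
    rwa [sign_pos (sub_pos.2 x), eq_comm, sign_eq_one_iff, sub_pos] at this
  rfl

lemma pow_self_le (n : ℕ) : n ^ n ≤ 3 ^ n * n.factorial := by
  have h := Real.pow_div_factorial_le_exp (n : ℝ) n.cast_nonneg n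
  rw [div_le_iff₀ (by positivity), ← Real.exp_one_pow] at h
  exact_mod_cast h.trans (mul_le_mul_of_nonneg_right
    (pow_le_pow_left₀ (Real.exp_pos 1).le Real.exp_one_lt_three.le n) (by positivity))

theorem numTypes_le_pow (k : ℕ) : ∃ C : ℕ, ∀ n, 1 ≤ n → numTypes k n ≤ (C * n) ^ n := by
  set K := Fintype.card (Lines k)
  set A := 25 * (2 * K + 11) with hA
  refine ⟨9 * K * A ^ (2 * K + 2) * 8 ^ (2 * K + 1), fun n hn => ?_⟩
  have h1 := numTypes_mul_factorial_le k n hn
  set M := 4 * (n ^ 3 + n ^ 2) + (n + 2 * K) + 2 with hM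
  have h2 : M ≤ (2 * K + 11) * n ^ 3 := by
    have a1 : 1 ≤ n ^ 3 := Nat.one_le_pow _ _ hn
    have a2 : n ≤ n ^ 3 := Nat.le_self_pow (by norm_num) n
    have a3 : n ^ 2 ≤ n ^ 3 := Nat.pow_le_pow_right hn (by norm_num)
    nlinarith
  have h3 : M.choose (n + 2 * K + 1) * n.factorial ≤ ((2 * K + 11) * n ^ 3) ^ (n + 2 * K + 1) :=
    calc _ ≤ (n + 2 * K + 1).factorial * M.choose (n + 2 * K + 1) := by
          rw [mul_comm]
          exact Nat.mul_le_mul_right _ (Nat.factorial_le (by omega))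
      _ ≤ M ^ (n + 2 * K + 1) := by
          rw [← Nat.descFactorial_eq_factorial_mul_choose]
          exact Nat.descFactorial_le_pow _ _
      _ ≤ _ := Nat.pow_le_pow_left h2 _
  have h4 : A ^ (n + 2 * K + 1) ≤ (A ^ (2 * K + 2)) ^ n := by
    rw [← pow_mul]
    exact Nat.pow_le_pow_right (by omega) (by nlinarith)
  have h5 : (n ^ 3) ^ (2 * K + 1) ≤ (8 ^ (2 * K + 1)) ^ n := by
    rw [← pow_mul 8, mul_comm _ n, pow_mul 8]
    refine Nat.pow_le_pow_left ?_ _
    rw [show 8 = 2 ^ 3 by norm_num, ← pow_mul, mul_comm, pow_mul]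
    exact Nat.pow_le_pow_left n.lt_two_pow_self.le _
  refine Nat.le_of_mul_le_mul_right ?_ (show 0 < n ^ n * n ^ n by positivity)
  calc numTypes k n * (n ^ n * n ^ n)
      ≤ numTypes k n * (3 ^ n * n.factorial * (3 ^ n * n.factorial)) :=
        Nat.mul_le_mul_left _ (Nat.mul_le_mul (pow_self_le n) (pow_self_le n))
    _ = 9 ^ n * (numTypes k n * n.factorial) * n.factorial := by
        rw [show 9 = 3 * 3 by norm_num, mul_pow]
        ring
    _ ≤ 9 ^ n * (5 ^ (2 * (n + 2 * K) + 2) * M.choose (n + 2 * K + 1) * K ^ n) * n.factorial := by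
        gcongr
    _ = 9 ^ n * K ^ n * 25 ^ (n + 2 * K + 1) * (M.choose (n + 2 * K + 1) * n.factorial) := by
        rw [show 25 = 5 ^ 2 by norm_num, ← pow_mul]
        ring
    _ ≤ 9 ^ n * K ^ n * 25 ^ (n + 2 * K + 1) * ((2 * K + 11) * n ^ 3) ^ (n + 2 * K + 1) := by
        gcongr
    _ = 9 ^ n * K ^ n * A ^ (n + 2 * K + 1) * (n ^ 3) ^ (2 * K + 1) * (n ^ 3) ^ n := by
        rw [hA, mul_pow, mul_pow, add_assoc n, pow_add (n ^ 3) n]
        ring
    _ ≤ 9 ^ n * K ^ n * (A ^ (2 * K + 2)) ^ n * (8 ^ (2 * K + 1)) ^ n * (n ^ 3) ^ n := by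
        gcongr
    _ = _ := by
        simp only [mul_pow]
        ring

end Pool.Agent.P.MP_708b53_co
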