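import Pool.Agent.P.MP_708b53_co.Growth

namespace Pool.Agent.P.MP_708b53_co.VariantGrowthRate

open Pool.Agent.P.MP_708b53_co

theorem result : ∀ n : ℕ, 16 ≤ n →
    Real.exp ((n : ℝ) * Real.log n / 8) ≤ numTypes 6 n ∧
      (numTypes 6 n : ℝ) ≤ Real.exp (10 * (n : ℝ) * Real.log n) :=
  growth

end Pool.Agent.P.MP_708b53_co.VariantGrowthRate
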